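import Mathlib
import Pool.Agent.H3.Ac.Snd
import Pool.Agent.H3.Alg.Lst

set_option autoImplicit false
set_option linter.unusedSectionVars false

/-!
# Worlds with weak coherence; conjunctions of lists of formulas
-/

namespace Pool.Agent.H3.Alg2

open Finset Pool.Agent.H3.Frg Pool.Agent.H3.Frg2 Pool.Agent.H3.Ac Pool.Agent.H3.Alg

/-- the values respect the connectives, as far as all formulas are in `S` -/
structure Coh2 {W V : Type} (val : Fm W → Finset (Sym2 V) → Option Bool) (S : Set (Fm W)) :
    Prop where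
  /-- negation -/
  neg : ∀ A, A ∈ S → Fm.neg A ∈ S → ∀ M, IsM M → ∀ a b, val A M = some a →
    val (Fm.neg A) M = some b → b = !a
  /-- implication -/
  imp : ∀ A B, A ∈ S → B ∈ S → Fm.imp A B ∈ S → ∀ M, IsM M → ∀ a b c, val A M = some a →
    val B M = some b → val (Fm.imp A B) M = some c → c = (!a || b)

/-- worlds with weak coherence -/
structure World2 {W : Type} (S Ax : Set (Fm W)) (w : ℕ) (V : Type) [Fintype V] [DecidableEq V]
    (val : Fm W → Finset (Sym2 V) → Option Bool) : Prop where
  /-- values -/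
  vals : ∀ A ∈ S, Val w (8 * w) (val A)
  /-- the connectives -/
  coh : Coh2 val S
  /-- the axioms are never false -/
  ax : ∀ A ∈ S, A ∈ Ax → ∀ M, IsM M → val A M ≠ some false
  /-- the number of vertices is odd -/
  odd : Odd (Fintype.card V)

variable {W V : Type} [Fintype V] [DecidableEq V]

/-- all formulas of the implication of the list are in `S` -/
structure ChS (S : Set (Fm W)) (v0 : W) (l : List (Fm W)) : Prop where
  /-- the formulas -/
  mem : ∀ A ∈ l, A ∈ S
  /-- the chain -/
  chn : ∀ X ∈ chn v0 l, X ∈ S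
  /-- `v0 → v0` -/
  iv : Fm.imp (Fm.var v0) (Fm.var v0) ∈ S
  /-- `v0` -/
  vr : Fm.var v0 ∈ S

theorem ChS.tail {S : Set (Fm W)} {v0 : W} {B : Fm W} {l : List (Fm W)} (h : ChS S v0 (B :: l)) :
    ChS S v0 l :=
  ⟨fun A hA => h.mem A (by simp [hA]), fun X hX => h.chn X (by simp [Alg.chn, hX]), h.iv, h.vr⟩

theorem ChS.self {S : Set (Fm W)} {v0 : W} {l : List (Fm W)} (h : ChS S v0 l) :
    Alg.ch v0 l ∈ S := h.chn _ (chn_self v0 l)

variable {val : Fm W → Finset (Sym2 V) → Option Bool} {S : Set (Fm W)} {w r : ℕ}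

/-- if the implication is false at `M`, none of the formulas is false at `M` -/
theorem ch_false (hval : ∀ A ∈ S, Val w r (val A)) (hcoh : Coh2 val S) (v0 : W)
    (hroom : 2 * (2 * w + w * 2) + r ≤ Fintype.card V) (l : List (Fm W)) :
    ChS S v0 l → ∀ A ∈ l, ∀ M : Finset (Sym2 V), IsM M → val (Alg.ch v0 l) M = some false →
      val A M ≠ some false := by
  induction l with
  | nil =>
    intro _ A hA
    exact absurd hA (List.not_mem_nil)
  | cons B l ih =>
    intro hC A hA M hM hf hAf
    have hCS := hC.self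
    have hBS := hC.mem B (by simp)
    have hlS := hC.tail.self
    have hAS := hC.mem A hA
    obtain ⟨t1, a1, a2, a3⟩ := (hval _ hCS).wit M hM false hf
    obtain ⟨t2, b1, b2, b3⟩ := (hval _ hAS).wit M hM false hAf
    have hu : t1 ∪ t2 ⊆ M := Finset.union_subset a1 b1
    have huM : IsM (t1 ∪ t2) := isM_sub hM hu
    have hcard : (t1 ∪ t2).card ≤ 2 * w := (Finset.card_union_le _ _).trans (by omega)
    obtain ⟨M', h1, h2, _, h4⟩ := snd_decide hval [B, Alg.ch v0 l] (by
      intro X hX
      simp only [List.mem_cons, List.not_mem_nil, or_false] at hX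
      rcases hX with rfl | rfl
      · exact hBS
      · exact hlS) (t1 ∪ t2) huM (by
        refine le_trans ?_ hroom
        show 2 * ((t1 ∪ t2).card + w * 2) + r ≤ _
        omega)
    have e1 := (hval _ hCS).mono t1 M' h1 (Finset.subset_union_left.trans h2) false a3
    have e2 := (hval _ hAS).mono t2 M' h1 (Finset.subset_union_right.trans h2) false b3
    obtain ⟨b, hb⟩ := Option.ne_none_iff_exists'.1 (h4 B (by simp))
    obtain ⟨c, hc⟩ := Option.ne_none_iff_exists'.1 (h4 (Alg.ch v0 l) (by simp))
    have e3 := hcoh.imp B (Alg.ch v0 l) hBS hlS hCS M' h1 b c false hb hc e1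
    rcases List.mem_cons.1 hA with rfl | hA
    · rw [e2] at hb
      rw [← Option.some.inj hb] at e3
      exact absurd e3 (by simp)
    · have hc' : c = false := by
        cases c
        · rfl
        · exact absurd e3 (by simp)
      rw [hc'] at hc
      exact ih hC.tail A hA M' h1 hc e2

/-- the false formula -/
theorem bot_false (hcoh : Coh2 val S) (v0 : W) {l : List (Fm W)} (h : ChS S v0 l)
    (hb0 : Alg.ch v0 ([] : List (Fm W)) ∈ S)
    {M : Finset (Sym2 V)} (hM : IsM M) {b c x : Bool} (hb : val (Alg.ch v0 []) M = some b)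
    (hc : val (Fm.imp (Fm.var v0) (Fm.var v0)) M = some c) (hx : val (Fm.var v0) M = some x) :
    b = false := by
  have e1 := hcoh.imp _ _ h.vr h.vr h.iv M hM x x c hx hx hc
  have e2 := hcoh.neg _ h.iv hb0 M hM c b hc hb
  rw [e2, e1]
  cases x <;> rfl

/-- if none of the formulas is false above the small matching `t`, the implication is not true above
`t` -/
theorem ch_true (hval : ∀ A ∈ S, Val w r (val A)) (hcoh : Coh2 val S) (v0 : W)
    (q : ℕ) (hroom : 2 * (q + w + w * 2) + r ≤ Fintype.card V) (t : Finset (Sym2 V))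
    (ht : t.card ≤ q) (l : List (Fm W)) :
    ChS S v0 l → (∀ A ∈ l, ∀ M : Finset (Sym2 V), IsM M → t ⊆ M → val A M ≠ some false) →
      ∀ M : Finset (Sym2 V), IsM M → t ⊆ M → val (Alg.ch v0 l) M ≠ some true := by
  induction l with
  | nil =>
    intro hC _ M hM htM hT
    have hC0 := hC.self
    obtain ⟨M', h4, h5, h6⟩ := snd_wit hval hC0 hM hT
      [Fm.imp (Fm.var v0) (Fm.var v0), Fm.var v0] (by
        intro X hX
        simp only [List.mem_cons, List.not_mem_nil, or_false] at hX
        rcases hX with rfl | rfl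
        · exact hC.iv
        · exact hC.vr) (by
        refine le_trans ?_ hroom
        show 2 * (w + w * 2) + r ≤ _
        omega)
    obtain ⟨b, hb⟩ := Option.ne_none_iff_exists'.1
      (h6 (Fm.imp (Fm.var v0) (Fm.var v0)) (by simp))
    obtain ⟨c, hc⟩ := Option.ne_none_iff_exists'.1 (h6 (Fm.var v0) (by simp))
    have := bot_false hcoh v0 hC hC0 h4 h5 hb hc
    exact absurd this (by simp)
  | cons B l ih =>
    intro hC hno M hM htM hT
    have hCS := hC.self
    have hBS := hC.mem B (by simp)
    have hlS := hC.tail.self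
    obtain ⟨s, a1, a2, a3⟩ := (hval _ hCS).wit M hM true hT
    have hu : t ∪ s ⊆ M := Finset.union_subset htM a1
    have huM : IsM (t ∪ s) := isM_sub hM hu
    have hcard : (t ∪ s).card ≤ q + w := (Finset.card_union_le _ _).trans (by omega)
    obtain ⟨M', h1, h2, _, h4⟩ := snd_decide hval [B, Alg.ch v0 l] (by
      intro X hX
      simp only [List.mem_cons, List.not_mem_nil, or_false] at hX
      rcases hX with rfl | rfl
      · exact hBS
      · exact hlS) (t ∪ s) huM (by
        refine le_trans ?_ hroom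
        show 2 * ((t ∪ s).card + w * 2) + r ≤ _
        omega)
    have e1 := (hval _ hCS).mono s M' h1 (Finset.subset_union_right.trans h2) true a3
    have htM' : t ⊆ M' := Finset.subset_union_left.trans h2
    obtain ⟨b, hb⟩ := Option.ne_none_iff_exists'.1 (h4 B (by simp))
    obtain ⟨c, hc⟩ := Option.ne_none_iff_exists'.1 (h4 (Alg.ch v0 l) (by simp))
    have e3 := hcoh.imp B (Alg.ch v0 l) hBS hlS hCS M' h1 b c true hb hc e1
    have hb' : b = true := by
      cases b
      · exact absurd hb (hno B (by simp) M' h1 htM')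
      · rfl
    have hc' : c = true := by
      rw [hb'] at e3
      cases c
      · exact absurd e3 (by simp)
      · rfl
    rw [hc'] at hc
    exact ih hC.tail (fun A hA => hno A (by simp [hA])) M' h1 htM' hc

/-- the conjunction of a union of two lists is the conjunction of the conjunctions -/
theorem cj_union (hval : ∀ A ∈ S, Val w r (val A)) (hcoh : Coh2 val S) (v0 : W)
    (hroom : 2 * (2 * w + w + w * 2) + r ≤ Fintype.card V) {l l1 l2 : List (Fm W)}
    (hl : ∀ A, A ∈ l ↔ A ∈ l1 ∨ A ∈ l2) (k0 : ChS S v0 l) (k1' : ChS S v0 l1) (k2' : ChS S v0 l2)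
    (h : cj v0 l ∈ S) (h1 : cj v0 l1 ∈ S) (h2 : cj v0 l2 ∈ S)
    {M : Finset (Sym2 V)} (hM : IsM M) {b b1 b2 c c1 c2 : Bool}
    (hb : val (cj v0 l) M = some b) (hb1 : val (cj v0 l1) M = some b1)
    (hb2 : val (cj v0 l2) M = some b2) (hc : val (Alg.ch v0 l) M = some c)
    (hc1 : val (Alg.ch v0 l1) M = some c1) (hc2 : val (Alg.ch v0 l2) M = some c2) :
    b = (b1 && b2) := by
  have g := k0.self
  have g1 := k1'.self
  have g2 := k2'.self
  have e := hcoh.neg _ g h M hM c b hc hb
  have e1 := hcoh.neg _ g1 h1 M hM c1 b1 hc1 hb1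
  have e2 := hcoh.neg _ g2 h2 M hM c2 b2 hc2 hb2
  have hr1 : 2 * (2 * w + w * 2) + r ≤ Fintype.card V := by omega
  have key1 : ∀ (l' : List (Fm W)), (∀ A ∈ l', A ∈ l) → ChS S v0 l' → c = false →
      val (Alg.ch v0 l') M ≠ some true := by
    intro l' hl' hl'S hcf hT
    rw [hcf] at hc
    obtain ⟨t, a1, a2, a3⟩ := (hval _ g).wit M hM false hc
    refine ch_true hval hcoh v0 w (by omega) t a2 l' hl'S ?_ M hM a1 hT
    intro A hA N hN htN
    exact ch_false hval hcoh v0 hr1 l k0 A (hl' A hA) N hN
      ((hval _ g).mono t N hN htN false a3)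
  have key2 : c1 = false → c2 = false → val (Alg.ch v0 l) M ≠ some true := by
    intro hf1 hf2 hT
    rw [hf1] at hc1
    rw [hf2] at hc2
    obtain ⟨t1, a1, a2, a3⟩ := (hval _ g1).wit M hM false hc1
    obtain ⟨t2, b1', b2', b3⟩ := (hval _ g2).wit M hM false hc2
    refine ch_true hval hcoh v0 (2 * w) (by omega) (t1 ∪ t2)
      ((Finset.card_union_le _ _).trans (by omega)) l k0 ?_ M hM (Finset.union_subset a1 b1') hT
    intro A hA N hN htN
    rcases (hl A).1 hA with h' | h'
    · exact ch_false hval hcoh v0 hr1 l1 k1' A h' N hN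
        ((hval _ g1).mono t1 N hN (Finset.subset_union_left.trans htN) false a3)
    · exact ch_false hval hcoh v0 hr1 l2 k2' A h' N hN
        ((hval _ g2).mono t2 N hN (Finset.subset_union_right.trans htN) false b3)
  have k1 : c = false → c1 = false := by
    intro hcf
    have := key1 l1 (fun A hA => (hl A).2 (Or.inl hA)) k1' hcf
    rw [hc1] at this
    cases c1
    · rfl
    · exact absurd rfl this
  have k2 : c = false → c2 = false := by
    intro hcf
    have := key1 l2 (fun A hA => (hl A).2 (Or.inr hA)) k2' hcf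
    rw [hc2] at this
    cases c2
    · rfl
    · exact absurd rfl this
  have k3 : c1 = false → c2 = false → c = false := by
    intro hf1 hf2
    have := key2 hf1 hf2
    rw [hc] at this
    cases c
    · rfl
    · exact absurd rfl this
  have key : ∀ c c1 c2 : Bool, (c = false → c1 = false) → (c = false → c2 = false) →
      (c1 = false → c2 = false → c = false) → (!c) = (!c1 && !c2) := by decide
  rw [e, e1, e2]
  exact key c c1 c2 k1 k2 k3

/-- the conjunction of a list with one more formula -/
theorem cj_insert (hval : ∀ A ∈ S, Val w r (val A)) (hcoh : Coh2 val S) (v0 : W)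
    (hroom : 2 * (2 * w + w + w * 2) + r ≤ Fintype.card V) {l l2 : List (Fm W)} {A : Fm W}
    (hl : ∀ X, X ∈ l ↔ X = A ∨ X ∈ l2) (k0 : ChS S v0 l) (k2' : ChS S v0 l2)
    (h : cj v0 l ∈ S) (h2 : cj v0 l2 ∈ S)
    {M : Finset (Sym2 V)} (hM : IsM M) {b b2 c c2 x : Bool}
    (hb : val (cj v0 l) M = some b) (hb2 : val (cj v0 l2) M = some b2)
    (hc : val (Alg.ch v0 l) M = some c) (hc2 : val (Alg.ch v0 l2) M = some c2)
    (hx : val A M = some x) : b = (x && b2) := by
  have g := k0.self
  have g2 := k2'.self
  have hAS : A ∈ S := k0.mem A ((hl A).2 (Or.inl rfl))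
  have e := hcoh.neg _ g h M hM c b hc hb
  have e2 := hcoh.neg _ g2 h2 M hM c2 b2 hc2 hb2
  have hr1 : 2 * (2 * w + w * 2) + r ≤ Fintype.card V := by omega
  have k1 : c = false → x = true := by
    intro hcf
    rw [hcf] at hc
    have := ch_false hval hcoh v0 hr1 l k0 A ((hl A).2 (Or.inl rfl)) M hM hc
    rw [hx] at this
    cases x
    · exact absurd rfl this
    · rfl
  have k2 : c = false → c2 = false := by
    intro hcf
    rw [hcf] at hc
    obtain ⟨t, a1, a2, a3⟩ := (hval _ g).wit M hM false hc
    have := ch_true hval hcoh v0 w (by omega) t a2 l2 k2' (fun X hX N hN htN =>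
      ch_false hval hcoh v0 hr1 l k0 X ((hl X).2 (Or.inr hX)) N hN
        ((hval _ g).mono t N hN htN false a3)) M hM a1
    rw [hc2] at this
    cases c2
    · rfl
    · exact absurd rfl this
  have k3 : x = true → c2 = false → c = false := by
    intro hxt hf2
    rw [hf2] at hc2
    rw [hxt] at hx
    obtain ⟨t1, a1, a2, a3⟩ := (hval _ hAS).wit M hM true hx
    obtain ⟨t2, b1', b2', b3⟩ := (hval _ g2).wit M hM false hc2
    have := ch_true hval hcoh v0 (2 * w) (by omega) (t1 ∪ t2)
      ((Finset.card_union_le _ _).trans (by omega)) l k0 (fun X hX N hN htN => by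
        rcases (hl X).1 hX with rfl | h'
        · rw [(hval _ hAS).mono t1 N hN (Finset.subset_union_left.trans htN) true a3]
          simp
        · exact ch_false hval hcoh v0 hr1 l2 k2' X h' N hN
            ((hval _ g2).mono t2 N hN (Finset.subset_union_right.trans htN) false b3))
      M hM (Finset.union_subset a1 b1')
    rw [hc] at this
    cases c
    · rfl
    · exact absurd rfl this
  have key : ∀ c x c2 : Bool, (c = false → x = true) → (c = false → c2 = false) →
      (x = true → c2 = false → c = false) → (!c) = (x && !c2) := by decide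
  rw [e, e2]
  exact key c x c2 k1 k2 k3

end Pool.Agent.H3.Alg2
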