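import Mathlib
import Pool.Agent.H3.Wd.Defs
import Pool.Agent.H3.Alg.Res
import Pool.Agent.H3.Alg2.Cj

set_option autoImplicit false
set_option linter.unusedSectionVars false

/-!
# Restricting a world to fewer points
-/

namespace Pool.Agent.H3.Alg2

open Finset Pool.Agent.H3.Frg Pool.Agent.H3.Ac Pool.Agent.H3.Wd Pool.Agent.H3.Alg

variable {W V : Type} [Fintype V] [DecidableEq V]

/-- there is a world with at least `c` vertices -/
def HasWorld2 {W : Type} (S Ax : Set (Fm W)) (w c : ℕ) : Prop :=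
  ∃ (V : Type) (_ : Fintype V) (_ : DecidableEq V) (val : Fm W → Finset (Sym2 V) → Option Bool),
    World2 S Ax w V val ∧ c ≤ Fintype.card V

/-- restriction by a matching -/
theorem world2_lft {S Ax : Set (Fm W)} {w : ℕ} {val : Fm W → Finset (Sym2 V) → Option Bool}
    (h : World2 S Ax w V val) {ρ : Finset (Sym2 V)} (hρ : IsM ρ) :
    World2 S Ax w (Unc ρ) (fun A M => val A (lft ρ M)) := by
  have hU := card_Unc hρ
  refine ⟨fun A hA => ⟨?_, ?_, ?_⟩, ⟨?_, ?_⟩, ?_, ?_⟩
  · intro M M' hM' hMM b hb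
    exact (h.vals A hA).mono _ _ (isM_lft hρ hM') (lft_mono hMM) b hb
  · intro M hM b hb
    obtain ⟨t, ht1, ht2, ht3⟩ := (h.vals A hA).wit _ (isM_lft hρ hM) b hb
    exact ⟨rst ρ t, rst_sub ht1, (card_rst_le t).trans ht2,
      (h.vals A hA).mono _ _ (isM_lft hρ (isM_sub hM (rst_sub ht1))) (sub_lft_rst ht1) b ht3⟩
  · intro M hM hroom
    have hc := card_lft (ρ := ρ) M
    obtain ⟨N, hN1, hN2, hN3, hN4⟩ := (h.vals A hA).tot (lft ρ M) (isM_lft hρ hM) (by omega)
    have hsub : ρ ⊆ N := (sub_lft M).trans hN2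
    have e1 := lft_rst hN1 hsub
    refine ⟨rst ρ N, isM_rst hN1, ?_, ?_, ?_⟩
    · have h1 := rst_mono (ρ := ρ) hN2
      rwa [rst_lft] at h1
    · have h1 := card_lft (ρ := ρ) (rst ρ N)
      rw [e1] at h1
      omega
    · show val A (lft ρ (rst ρ N)) ≠ none
      rw [e1]
      exact hN4
  · intro A hA hA' M hM a b ha hb
    exact h.coh.neg A hA hA' _ (isM_lft hρ hM) a b ha hb
  · intro A B hA hB hAB M hM a b c ha hb hc
    exact h.coh.imp A B hA hB hAB _ (isM_lft hρ hM) a b c ha hb hc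
  · intro A hA hAx M hM
    exact h.ax A hA hAx _ (isM_lft hρ hM)
  · rcases h.odd with ⟨k, hk⟩
    refine ⟨k - ρ.card, ?_⟩
    omega

variable {V' : Type} [Fintype V'] [DecidableEq V']

/-- transport -/
theorem world2_img {S Ax : Set (Fm W)} {w : ℕ} {val : Fm W → Finset (Sym2 V) → Option Bool}
    (h : World2 S Ax w V val) (e : V' ≃ V) :
    World2 S Ax w V' (fun A M => val A (img e M)) := by
  have hU : Fintype.card V' = Fintype.card V := Fintype.card_congr e
  refine ⟨fun A hA => ⟨?_, ?_, ?_⟩, ⟨?_, ?_⟩, ?_, ?_⟩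
  · intro M M' hM' hMM b hb
    exact (h.vals A hA).mono _ _ (isM_img e hM') (img_mono e hMM) b hb
  · intro M hM b hb
    obtain ⟨t, ht1, ht2, ht3⟩ := (h.vals A hA).wit _ (isM_img e hM) b hb
    refine ⟨img e.symm t, ?_, by rw [card_img]; exact ht2, ?_⟩
    · have h1 := img_mono e.symm ht1
      have h2 := img_img e.symm M
      rw [Equiv.symm_symm] at h2
      rwa [h2] at h1
    · show val A (img e (img e.symm t)) = some b
      rw [img_img]
      exact ht3
  · intro M hM hroom
    obtain ⟨N, hN1, hN2, hN3, hN4⟩ := (h.vals A hA).tot (img e M) (isM_img e hM) (by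
      rw [card_img]; omega)
    refine ⟨img e.symm N, isM_img _ hN1, ?_, ?_, ?_⟩
    · have h1 := img_mono e.symm hN2
      have h2 := img_img e.symm M
      rw [Equiv.symm_symm] at h2
      rwa [h2] at h1
    · rw [card_img] at hN3 ⊢
      exact hN3
    · show val A (img e (img e.symm N)) ≠ none
      rw [img_img]
      exact hN4
  · intro A hA hA' M hM a b ha hb
    exact h.coh.neg A hA hA' _ (isM_img e hM) a b ha hb
  · intro A B hA hB hAB M hM a b c ha hb hc
    exact h.coh.imp A B hA hB hAB _ (isM_img e hM) a b c ha hb hc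
  · intro A hA hAx M hM
    exact h.ax A hA hAx _ (isM_img e hM)
  · rw [hU]
    exact h.odd

/-- a world with fewer points -/
theorem world2_small {S Ax : Set (Fm W)} {w c : ℕ} (h : HasWorld2 S Ax w c) (V' : Type)
    [Fintype V'] [DecidableEq V'] (hodd : Odd (Fintype.card V')) (hle : Fintype.card V' ≤ c) :
    ∃ val : Fm W → Finset (Sym2 V') → Option Bool, World2 S Ax w V' val := by
  obtain ⟨V, hF, hD, val, hW, hc⟩ := h
  obtain ⟨k, hk⟩ := hW.odd
  obtain ⟨k', hk'⟩ := hodd
  obtain ⟨Z, _, hZ⟩ := Finset.exists_subset_card_eq (s := (univ : Finset V)) (n := 2 * (k - k'))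
    (by rw [Finset.card_univ]; omega)
  obtain ⟨ρ, hρ, hcov⟩ := exists_pm (k - k') Z hZ
  have h1 := card_Unc hρ
  have h2 := card_cov hρ
  rw [hcov, hZ] at h2
  have h3 : Fintype.card V' = Fintype.card (Unc ρ) := by omega
  exact ⟨_, world2_img (world2_lft hW hρ) (Fintype.equivOfCardEq h3)⟩

end Pool.Agent.H3.Alg2
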