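import Mathlib
import Pool.Agent.H3.Alg2.Res
import Pool.Agent.H1.FX.Fin3

set_option autoImplicit false
set_option linter.unusedSectionVars false

/-!
# Worlds with a few arbitrary formulas as atoms

From a world for the formulas `star b A`, `A ∈ Vis`, we get a world with weak coherence for the formulas
in `Vis`: the atoms have constant values, the other formulas `A` have the values of `star v A` above a
small matching.
-/

namespace Pool.Agent.H3.Alg2

open Finset Pool.Agent.H3.Frg Pool.Agent.H3.Frg2 Pool.Agent.H3.Ac Pool.Agent.H3.Wd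
  Pool.Agent.H3.Alg Pool.Agent.H1.FX

variable {W : Type}

/-- a constant function is a value -/
theorem val_const {V : Type} [Fintype V] [DecidableEq V] {w r : ℕ} (b : Bool) :
    Val w r (fun _ : Finset (Sym2 V) => some b) := by
  refine ⟨fun M M' _ _ b' h => h, fun M hM b' h => ⟨∅, by simp, by simp, h⟩, fun M hM _ =>
    ⟨M, hM, Finset.Subset.refl _, by omega, by simp⟩⟩

open scoped Classical in
/-- the new values -/
noncomputable def nval {V : Type} (val : Fm W → Finset (Sym2 V) → Option Bool) (v0 : W)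
    (Gl : List (Fm W)) (v : Fm W → Bool) (A : Fm W) (M : Finset (Sym2 V)) : Option Bool :=
  if A ∈ Gl then some (v A) else val (star v0 Gl v A) M

theorem nval_mem {V : Type} {val : Fm W → Finset (Sym2 V) → Option Bool} {v0 : W}
    {Gl : List (Fm W)} {v : Fm W → Bool} {A : Fm W} (hA : A ∈ Gl) (M : Finset (Sym2 V)) :
    nval val v0 Gl v A M = some (v A) := by
  unfold nval
  rw [if_pos hA]

theorem nval_not {V : Type} {val : Fm W → Finset (Sym2 V) → Option Bool} {v0 : W}
    {Gl : List (Fm W)} {v : Fm W → Bool} {A : Fm W} (hA : A ∉ Gl) (M : Finset (Sym2 V)) :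
    nval val v0 Gl v A M = val (star v0 Gl v A) M := by
  unfold nval
  rw [if_neg hA]

variable {V : Type} [Fintype V] [DecidableEq V]
  {val : Fm W → Finset (Sym2 V) → Option Bool} {S Ax : Set (Fm W)} {w : ℕ}

/-- a world for the visible formulas -/
theorem world_atm (hW : World S Ax w V val) (hS : SubCl S) (v0 : W) (hcS : cst v0 false ∈ S)
    (Gl : List (Fm W)) (Vis : Set (Fm W)) (hst : ∀ b, ∀ A ∈ Vis, star v0 Gl b A ∈ S)
    (hAx : ∀ A ∈ Ax, A ∉ Gl ∧ ∀ b, star v0 Gl b A = A)
    (hroom : 2 * (w * (3 * Gl.length)) + 18 * w ≤ Fintype.card V) :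
    HasWorld2 Vis Ax w (Fintype.card V - 2 * (w * (3 * Gl.length))) := by
  classical
  obtain ⟨n, hn⟩ : ∃ n, ∀ X ∈ TT Gl 1, X.len < n := by
    obtain ⟨n, hn⟩ : ∃ n, ∀ X ∈ (TT Gl 1).map Fm.len, X < n := by
      refine ⟨((TT Gl 1).map Fm.len).sum + 1, fun X hX => ?_⟩
      exact Nat.lt_succ_of_le (List.single_le_sum (fun _ _ => Nat.zero_le _) _ hX)
    exact ⟨n, fun X hX => hn _ (List.mem_map.2 ⟨X, hX, rfl⟩)⟩
  have hT := TT_len Gl 1
  rw [pow_one] at hT
  have hT' : w * (TT Gl 1).length ≤ w * (3 * Gl.length) := Nat.mul_le_mul_left _ hT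
  obtain ⟨v, M0, hM0, hM0c, hv1, hv2⟩ := exists_v hW.vals v0 Gl Vis hst (TT Gl 1) (by omega) n
  have hcount : (TT Gl 1).countP (fun X => decide (X.len < n)) ≤ (TT Gl 1).length :=
    List.countP_le_length
  have hM0c' : M0.card ≤ w * (3 * Gl.length) :=
    hM0c.trans ((Nat.mul_le_mul_left _ hcount).trans hT')
  have hv1' : ∀ X ∈ TT Gl 1, X ∈ Vis → X ∉ Gl → val (star v0 Gl v X) M0 = some (v X) :=
    fun X hX => hv1 X hX (hn X hX)
  have hv2' : ∀ X ∈ Gl, v X = conn v X := fun X hX =>
    hv2 X (hn X (TT_mono (Nat.zero_le _) hX)) (Or.inl hX)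
  -- the values of the visible formulas inside the atoms
  have hin : ∀ X ∈ TT Gl 1, X ∈ Vis → ∀ M, IsM M → M0 ⊆ M → nval val v0 Gl v X M = some (v X) := by
    intro X hX hXV M hM hMM
    by_cases hG : X ∈ Gl
    · exact nval_mem hG M
    · rw [nval_not hG]
      exact (hW.vals _ (hst v X hXV)).mono M0 M hM hMM _ (hv1' X hX hXV hG)
  have hroom2 : 2 * (w + w * 2) + 8 * w ≤ Fintype.card V := by omega
  -- weak coherence above `M0`
  have hneg : ∀ A, A ∈ Vis → Fm.neg A ∈ Vis → ∀ M, IsM M → M0 ⊆ M → ∀ a b,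
      nval val v0 Gl v A M = some a → nval val v0 Gl v (Fm.neg A) M = some b → b = !a := by
    intro A hA hnA M hM hMM a b ha hb
    by_cases hG : Fm.neg A ∈ Gl
    · rw [nval_mem hG] at hb
      rw [hin A (TT_neg (j := 0) hG) hA M hM hMM] at ha
      rw [← Option.some.inj ha, ← Option.some.inj hb, hv2' _ hG]
      rfl
    · rw [nval_not hG, star_neg hG] at hb
      have hmem := hst v _ hnA
      rw [star_neg hG] at hmem
      by_cases hG' : A ∈ Gl
      · rw [nval_mem hG'] at ha
        rw [star_mem hG'] at hb hmem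
        obtain ⟨M', h3, h4, h5⟩ := snd_wit hW.vals hmem hM hb [cst v0 (v A)] (by
          intro X hX
          rw [List.mem_singleton] at hX
          rw [hX]
          exact hS.1 _ hmem) (by
            refine le_trans ?_ hroom2
            show 2 * (w + w * 1) + 8 * w ≤ _
            omega)
        obtain ⟨c, hc⟩ := Option.ne_none_iff_exists'.1 (h5 (cst v0 (v A)) (by simp))
        have h6 := cst_val hW.vals hW.coh hS hcS hroom2 h3 hc
        have h7 := hW.coh.neg _ hmem M' h3 _ _ hc h4
        rw [h7, h6, ← Option.some.inj ha]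
      · rw [nval_not hG'] at ha
        exact hW.coh.neg _ hmem M hM _ _ ha hb
  have himp : ∀ A B, A ∈ Vis → B ∈ Vis → Fm.imp A B ∈ Vis → ∀ M, IsM M → M0 ⊆ M → ∀ a b c,
      nval val v0 Gl v A M = some a → nval val v0 Gl v B M = some b →
      nval val v0 Gl v (Fm.imp A B) M = some c → c = (!a || b) := by
    intro A B hA hB hAB M hM hMM a b c ha hb hc
    by_cases hG : Fm.imp A B ∈ Gl
    · rw [nval_mem hG] at hc
      rw [hin A (TT_imp (j := 0) hG).1 hA M hM hMM] at ha
      rw [hin B (TT_imp (j := 0) hG).2 hB M hM hMM] at hb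
      rw [← Option.some.inj ha, ← Option.some.inj hb, ← Option.some.inj hc, hv2' _ hG]
      rfl
    · rw [nval_not hG, star_imp hG] at hc
      have hmem := hst v _ hAB
      rw [star_imp hG] at hmem
      have hA' := (hS.2 _ _ hmem).1
      have hB' := (hS.2 _ _ hmem).2
      obtain ⟨t, q1, q2, q3⟩ := (hW.vals _ hmem).wit M hM c hc
      -- decide the two formulas above a small matching
      obtain ⟨ta, ha1, ha2, ha3⟩ : ∃ ta, ta ⊆ M ∧ ta.card ≤ w ∧ ∀ M', IsM M' → ta ⊆ M' →
          ∀ x, val (star v0 Gl v A) M' = some x → x = a := by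
        by_cases hGA : A ∈ Gl
        · rw [nval_mem hGA] at ha
          refine ⟨∅, by simp, by simp, fun M' hM' _ x hx => ?_⟩
          rw [star_mem hGA] at hx
          rw [cst_val hW.vals hW.coh hS hcS hroom2 hM' hx, ← Option.some.inj ha]
        · rw [nval_not hGA] at ha
          obtain ⟨t, q1, q2, q3⟩ := (hW.vals _ hA').wit M hM a ha
          refine ⟨t, q1, q2, fun M' hM' htM' x hx => ?_⟩
          rw [(hW.vals _ hA').mono t M' hM' htM' a q3] at hx
          exact (Option.some.inj hx).symm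
      obtain ⟨tb, hb1, hb2, hb3⟩ : ∃ tb, tb ⊆ M ∧ tb.card ≤ w ∧ ∀ M', IsM M' → tb ⊆ M' →
          ∀ x, val (star v0 Gl v B) M' = some x → x = b := by
        by_cases hGB : B ∈ Gl
        · rw [nval_mem hGB] at hb
          refine ⟨∅, by simp, by simp, fun M' hM' _ x hx => ?_⟩
          rw [star_mem hGB] at hx
          rw [cst_val hW.vals hW.coh hS hcS hroom2 hM' hx, ← Option.some.inj hb]
        · rw [nval_not hGB] at hb
          obtain ⟨t, q1, q2, q3⟩ := (hW.vals _ hB').wit M hM b hb
          refine ⟨t, q1, q2, fun M' hM' htM' x hx => ?_⟩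
          rw [(hW.vals _ hB').mono t M' hM' htM' b q3] at hx
          exact (Option.some.inj hx).symm
      have hu : t ∪ (ta ∪ tb) ⊆ M := Finset.union_subset q1 (Finset.union_subset ha1 hb1)
      have hcard : (t ∪ (ta ∪ tb)).card ≤ 3 * w := by
        refine (Finset.card_union_le _ _).trans ?_
        have := Finset.card_union_le ta tb
        omega
      obtain ⟨M', h1, h2, _, h4⟩ := snd_decide hW.vals [star v0 Gl v A, star v0 Gl v B] (by
        intro X hX
        simp only [List.mem_cons, List.not_mem_nil, or_false] at hX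
        rcases hX with rfl | rfl
        · exact hA'
        · exact hB') _ (isM_sub hM hu) (by
          show 2 * ((t ∪ (ta ∪ tb)).card + w * 2) + 8 * w ≤ _
          omega)
      have htM' : t ⊆ M' := Finset.subset_union_left.trans h2
      have htaM' : ta ⊆ M' :=
        (Finset.subset_union_left.trans Finset.subset_union_right).trans h2
      have htbM' : tb ⊆ M' :=
        (Finset.subset_union_right.trans Finset.subset_union_right).trans h2
      obtain ⟨x, hx⟩ := Option.ne_none_iff_exists'.1 (h4 (star v0 Gl v A) (by simp))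
      obtain ⟨y, hy⟩ := Option.ne_none_iff_exists'.1 (h4 (star v0 Gl v B) (by simp))
      have e1 := ha3 M' h1 htaM' x hx
      have e2 := hb3 M' h1 htbM' y hy
      have e3 := (hW.vals _ hmem).mono t M' h1 htM' c q3
      have e4 := hW.coh.imp _ _ hmem M' h1 _ _ _ hx hy e3
      rw [e4, e1, e2]
  have hvals : ∀ A ∈ Vis, Val w (8 * w) (nval val v0 Gl v A) := by
    intro A hA
    by_cases hG : A ∈ Gl
    · have h1 : nval val v0 Gl v A = fun _ => some (v A) := by
        funext M
        exact nval_mem hG M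
      rw [h1]
      exact val_const _
    · have h1 : nval val v0 Gl v A = val (star v0 Gl v A) := by
        funext M
        exact nval_not hG M
      rw [h1]
      exact hW.vals _ (hst v A hA)
  have hU := card_Unc hM0
  refine ⟨Unc M0, inferInstance, inferInstance, fun A M => nval val v0 Gl v A (lft M0 M),
    ⟨fun A hA => ⟨?_, ?_, ?_⟩, ⟨?_, ?_⟩, ?_, ?_⟩, by omega⟩
  · intro M M' hM' hMM b hb
    exact (hvals A hA).mono _ _ (isM_lft hM0 hM') (lft_mono hMM) b hb
  · intro M hM b hb
    obtain ⟨t, ht1, ht2, ht3⟩ := (hvals A hA).wit _ (isM_lft hM0 hM) b hb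
    exact ⟨rst M0 t, rst_sub ht1, (card_rst_le t).trans ht2,
      (hvals A hA).mono _ _ (isM_lft hM0 (isM_sub hM (rst_sub ht1))) (sub_lft_rst ht1) b ht3⟩
  · intro M hM hroom
    have hc := card_lft (ρ := M0) M
    obtain ⟨N, hN1, hN2, hN3, hN4⟩ := (hvals A hA).tot (lft M0 M) (isM_lft hM0 hM) (by omega)
    have hsub : M0 ⊆ N := (sub_lft M).trans hN2
    have e1 := lft_rst hN1 hsub
    refine ⟨rst M0 N, isM_rst hN1, ?_, ?_, ?_⟩
    · have h1 := rst_mono (ρ := M0) hN2
      rwa [rst_lft] at h1
    · have h1 := card_lft (ρ := M0) (rst M0 N)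
      rw [e1] at h1
      omega
    · show nval val v0 Gl v A (lft M0 (rst M0 N)) ≠ none
      rw [e1]
      exact hN4
  · intro A hA hA' M hM a b ha hb
    exact hneg A hA hA' _ (isM_lft hM0 hM) (sub_lft M) a b ha hb
  · intro A B hA hB hAB M hM a b c ha hb hc
    exact himp A B hA hB hAB _ (isM_lft hM0 hM) (sub_lft M) a b c ha hb hc
  · intro A hA hAA M hM
    show nval val v0 Gl v A (lft M0 M) ≠ some false
    obtain ⟨h1, h2⟩ := hAx A hAA
    rw [nval_not h1, h2 v]
    have h3 := hst v A hA
    rw [h2 v] at h3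
    exact hW.ax A h3 hAA _ (isM_lft hM0 hM)
  · rcases hW.odd with ⟨k, hk⟩
    refine ⟨k - M0.card, ?_⟩
    omega

end Pool.Agent.H3.Alg2
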