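import Mathlib
import Pool.Agent.H3.Frg.Formula

set_option autoImplicit false

/-!
# Algebraic proofs whose variables are formulas

The variables of the polynomials are propositional formulas. `FAx K C F p`: the polynomial `p` is one of
the axioms `A² - A`, `(¬A) - (1 - A)`, `(A → B) - (1 - A(1 - B))` for formulas in `F`, or an equation
`C i - 1` of the formulas `C i` that are refuted. `PCRef K C F pf`: the list `pf` of polynomials is a
refutation in the polynomial calculus. `SosRef C F q h p`: sum-of-squares refutations.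
-/

namespace Pool.Agent.H3.Alg2

open Pool.Agent.H3.Frg MvPolynomial

variable {W : Type}

/-- `F` is closed under immediate subformulas, except for the formulas in `G` -/
def CloOff (G F : Set (Fm W)) : Prop :=
  (∀ A, Fm.neg A ∈ F → Fm.neg A ∉ G → A ∈ F) ∧
    ∀ A B, Fm.imp A B ∈ F → Fm.imp A B ∉ G → A ∈ F ∧ B ∈ F

/-- axioms -/
inductive FAx (K : Type) [Field K] (C : ℕ → Fm W) (F : Set (Fm W)) :
    MvPolynomial (Fm W) K → Prop
  | bool (A : Fm W) : A ∈ F → FAx K C F (X A ^ 2 - X A)
  | neg (A : Fm W) : A ∈ F → Fm.neg A ∈ F → FAx K C F (X (Fm.neg A) - (1 - X A))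
  | imp (A B : Fm W) : A ∈ F → B ∈ F → Fm.imp A B ∈ F →
      FAx K C F (X (Fm.imp A B) - (1 - X A * (1 - X B)))
  | hyp (i : ℕ) : C i ∈ F → FAx K C F (X (C i) - 1)

/-- refutations in the polynomial calculus: every line is an axiom, a linear combination of two earlier
lines or an earlier line times a variable, and some line is `1` -/
def PCRef (K : Type) [Field K] (C : ℕ → Fm W) (F : Set (Fm W)) {L : ℕ}
    (pf : Fin L → MvPolynomial (Fm W) K) : Prop :=
  (∀ i, FAx K C F (pf i) ∨
    (∃ j < i, ∃ k < i, ∃ α β : K, pf i = α • pf j + β • pf k) ∨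
    ∃ j < i, ∃ A ∈ F, pf i = X A * pf j) ∧ ∃ i, pf i = 1

/-- sum-of-squares refutations: `-1` is a sum of squares and of multiples of axioms, all with variables
in `F` -/
def SosRef (C : ℕ → Fm W) (F : Set (Fm W)) {J I : ℕ} (q : Fin J → MvPolynomial (Fm W) ℝ)
    (h p : Fin I → MvPolynomial (Fm W) ℝ) : Prop :=
  (∀ i, FAx ℝ C F (p i)) ∧ (∀ j, q j ∈ supported ℝ F) ∧ (∀ i, h i ∈ supported ℝ F) ∧
    (-1 : MvPolynomial (Fm W) ℝ) = ∑ j, q j ^ 2 + ∑ i, h i * p i

end Pool.Agent.H3.Alg2
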