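import Mathlib
import Pool.Agent.H3.Alg2.Res
import Pool.Agent.H3.Alg2.Defs
import Pool.Agent.H3.Alg.AxZ

set_option autoImplicit false
set_option linter.unusedSectionVars false

/-!
# The labels of the conjunctions of monomials
-/

namespace Pool.Agent.H3.Alg2

open Finset Pool.Agent.H3.Frg Pool.Agent.H3.Frg2 Pool.Agent.H3.Ac Pool.Agent.H3.Wd
  Pool.Agent.H3.Alg MvPolynomial

variable {W : Type}
variable {E U : Type} [Fintype E] [DecidableEq E] [Fintype U] [DecidableEq U]
variable {src tgt : E → U} {u0 : U} {K : Type} [Field K]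
  {val : Fm W → Finset (Sym2 (VH E)) → Option Bool} {S Ax : Set (Fm W)} {d w : ℕ}

/-- relations between few values hold for the labels, up to a pseudo-zero function -/
theorem pk (h2 : (2 : K) ≠ 0) (hGH : GH src tgt d w) (hW : ∀ A ∈ S, Val w (8 * w) (val A))
    (l : List (Fm W)) (hl : ∀ A ∈ l, A ∈ S) (h6 : l.length ≤ 6) (G : (Fm W → Bool) → K)
    (hG : ∀ x y, (∀ A ∈ l, x A = y A) → G x = G y)
    (h0 : ∀ x : Fm W → Bool, ∀ M, IsM M → (∀ A ∈ l, val A M = some (x A)) → G x = 0)
    {k : ℕ} (hk : k ≤ 6 * L1 w) :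
    KZ src tgt d (sgn K src tgt u0) k (fun a => G (lb src tgt u0 val w a)) := by
  have hroom := hGH.room
  have hlen : L1 w * l.length ≤ 6 * L1 w := by
    rw [mul_comm]
    exact Nat.mul_le_mul_right _ h6
  refine loc_zero h2 hGH.exp sgn_mul_self hGH.deg (YL_SC l) (loc_comp l G hG)
    (L := L1 w * l.length) (fun a => inc_YL hGH l a) (by omega) ?_
  intro a hsat
  have hev : Ev src tgt u0 a (YL src tgt u0 val w l a) := fun u hu =>
    (sat_iff h2 hGH.loop a u).1 (hsat u hu)
  obtain ⟨M, hM, hv⟩ := lab_list hW l hl (fun A hA => YL_sub l A hA a) hev (by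
    have h1 := inc_YL (u0 := u0) (val := val) hGH l a
    have h3 : Fintype.card (VH E) = Fintype.card E * 2 + 1 := by
      simp [VH]
    have h4 := d_lt_card hGH.exp
    have h5 : w * l.length ≤ w * 6 := Nat.mul_le_mul_left _ h6
    have h7 : 10 * w ≤ L1 w := by
      unfold L1
      nlinarith [Nat.zero_le w]
    rw [h3]
    omega)
  exact h0 _ M hM hv

/-- the formulas needed for a monomial -/
structure BS (S : Set (Fm W)) (v0 : W) (m : Fm W →₀ ℕ) : Prop where
  /-- the conjunction -/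
  bm : Bm v0 m ∈ S
  /-- the implications -/
  chs : ChS S v0 m.support.toList

theorem BS.cm {S : Set (Fm W)} {v0 : W} {m : Fm W →₀ ℕ} (h : BS S v0 m) : Cm v0 m ∈ S :=
  h.chs.self

theorem BS.congr {S : Set (Fm W)} {v0 : W} {m m' : Fm W →₀ ℕ} (h : BS S v0 m)
    (hm : m.support = m'.support) : BS S v0 m' := by
  refine ⟨?_, ?_⟩
  · rw [← Bm_congr v0 hm]
    exact h.bm
  · rw [← hm]
    exact h.chs

/-- the label of the conjunction of a monomial with one more formula -/
theorem pz_insert (h2 : (2 : K) ≠ 0) (hGH : GH src tgt d w) (hW : World2 S Ax w (VH E) val)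
    (v0 : W) {m m' : Fm W →₀ ℕ} {A : Fm W}
    (hm : ∀ X, X ∈ m'.support ↔ X = A ∨ X ∈ m.support) (hm' : BS S v0 m')
    (hm0 : BS S v0 m) {k : ℕ} (hk : k ≤ 6 * L1 w) :
    KZ src tgt d (sgn K src tgt u0) k (fun a => rb K (lb src tgt u0 val w a (Bm v0 m'))
      - rb K (lb src tgt u0 val w a A) * rb K (lb src tgt u0 val w a (Bm v0 m))) := by
  have hA : A ∈ S := hm'.chs.mem A (by
    rw [Finset.mem_toList]
    exact (hm A).2 (Or.inl rfl))
  refine pk (K := K) (u0 := u0) h2 hGH hW.vals [Bm v0 m', Cm v0 m', Bm v0 m, Cm v0 m, A] ?_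
    (by simp) (fun x => rb K (x (Bm v0 m')) - rb K (x A) * rb K (x (Bm v0 m))) ?_ ?_ hk
  · intro X hX
    simp only [List.mem_cons, List.not_mem_nil, or_false] at hX
    rcases hX with rfl | rfl | rfl | rfl | rfl
    · exact hm'.bm
    · exact hm'.cm
    · exact hm0.bm
    · exact hm0.cm
    · exact hA
  · intro x y hxy
    simp only [hxy (Bm v0 m') (by simp), hxy (Bm v0 m) (by simp), hxy A (by simp)]
  · intro x M hM hv
    have e := cj_insert hW.vals hW.coh v0 (room_cj hGH) (l := m'.support.toList)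
      (l2 := m.support.toList) (A := A) (fun X => by
        rw [Finset.mem_toList, Finset.mem_toList]
        exact hm X) hm'.chs hm0.chs hm'.bm hm0.bm hM (hv (Bm v0 m') (by simp))
        (hv (Bm v0 m) (by simp)) (hv (Cm v0 m') (by simp)) (hv (Cm v0 m) (by simp))
        (hv A (by simp))
    rw [e]
    cases x A <;> cases x (Bm v0 m) <;> simp [rb]

/-- the label of the conjunction of a product of two monomials -/
theorem pz_union (h2 : (2 : K) ≠ 0) (hGH : GH src tgt d w) (hW : World2 S Ax w (VH E) val)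
    (v0 : W) {m1 m2 : Fm W →₀ ℕ} (h12 : BS S v0 (m1 + m2))
    (h1 : BS S v0 m1) (h2' : BS S v0 m2) {k : ℕ} (hk : k ≤ 6 * L1 w) :
    KZ src tgt d (sgn K src tgt u0) k (fun a => rb K (lb src tgt u0 val w a (Bm v0 (m1 + m2)))
      - rb K (lb src tgt u0 val w a (Bm v0 m1)) * rb K (lb src tgt u0 val w a (Bm v0 m2))) := by
  refine pk (K := K) (u0 := u0) h2 hGH hW.vals
    [Bm v0 (m1 + m2), Cm v0 (m1 + m2), Bm v0 m1, Cm v0 m1, Bm v0 m2, Cm v0 m2] ?_ (by simp)
    (fun x => rb K (x (Bm v0 (m1 + m2))) - rb K (x (Bm v0 m1)) * rb K (x (Bm v0 m2))) ?_ ?_ hk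
  · intro X hX
    simp only [List.mem_cons, List.not_mem_nil, or_false] at hX
    rcases hX with rfl | rfl | rfl | rfl | rfl | rfl
    · exact h12.bm
    · exact h12.cm
    · exact h1.bm
    · exact h1.cm
    · exact h2'.bm
    · exact h2'.cm
  · intro x y hxy
    simp only [hxy (Bm v0 (m1 + m2)) (by simp), hxy (Bm v0 m1) (by simp),
      hxy (Bm v0 m2) (by simp)]
  · intro x M hM hv
    have e := cj_union hW.vals hW.coh v0 (room_cj hGH) (l := (m1 + m2).support.toList)
      (l1 := m1.support.toList) (l2 := m2.support.toList) (fun X => by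
        rw [Finset.mem_toList, Finset.mem_toList, Finset.mem_toList]
        exact mem_support_add) h12.chs h1.chs h2'.chs h12.bm h1.bm h2'.bm hM
        (hv (Bm v0 (m1 + m2)) (by simp)) (hv (Bm v0 m1) (by simp)) (hv (Bm v0 m2) (by simp))
        (hv (Cm v0 (m1 + m2)) (by simp)) (hv (Cm v0 m1) (by simp)) (hv (Cm v0 m2) (by simp))
    rw [e]
    cases x (Bm v0 m1) <;> cases x (Bm v0 m2) <;> simp [rb]

/-- the label of the empty conjunction -/
theorem pz_one (h2 : (2 : K) ≠ 0) (hGH : GH src tgt d w) (hW : World2 S Ax w (VH E) val)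
    (v0 : W) (hm0 : BS S v0 0) {k : ℕ} (hk : k ≤ 6 * L1 w) :
    KZ src tgt d (sgn K src tgt u0) k
      (fun a => rb K (lb src tgt u0 val w a (Bm v0 0)) - 1) := by
  have h0 : Bm v0 (0 : Fm W →₀ ℕ) = cj v0 [] := by
    unfold Bm
    rw [Finsupp.support_zero, Finset.toList_empty]
  have hc := hm0.chs
  rw [Finsupp.support_zero, Finset.toList_empty] at hc
  have hb := hm0.bm
  rw [h0] at hb ⊢
  have g : Alg.ch v0 ([] : List (Fm W)) ∈ S := hc.self
  refine pk (K := K) (u0 := u0) h2 hGH hW.vals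
    [cj v0 [], Alg.ch v0 [], Fm.imp (Fm.var v0) (Fm.var v0), Fm.var v0] ?_ (by simp)
    (fun x => rb K (x (cj v0 [])) - 1) ?_ ?_ hk
  · intro X hX
    simp only [List.mem_cons, List.not_mem_nil, or_false] at hX
    rcases hX with rfl | rfl | rfl | rfl
    · exact hb
    · exact g
    · exact hc.iv
    · exact hc.vr
  · intro x y hxy
    simp only [hxy (cj v0 []) (by simp)]
  · intro x M hM hv
    have e := bot_false hW.coh v0 hc g hM (hv (Alg.ch v0 []) (by simp))
      (hv (Fm.imp (Fm.var v0) (Fm.var v0)) (by simp)) (hv (Fm.var v0) (by simp))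
    have e2 := hW.coh.neg _ g hb M hM _ _ (hv (Alg.ch v0 []) (by simp)) (hv (cj v0 []) (by simp))
    rw [e2, e]
    simp [rb]

end Pool.Agent.H3.Alg2
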