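import Mathlib
import Pool.Agent.H3.Alg2.Phi

set_option autoImplicit false
set_option linter.unusedSectionVars false

/-!
# Multiples of the axioms are pseudo-equal to zero
-/

namespace Pool.Agent.H3.Alg2

open Finset Pool.Agent.H3.Frg Pool.Agent.H3.Frg2 Pool.Agent.H3.Ac Pool.Agent.H3.Wd
  Pool.Agent.H3.Alg MvPolynomial

variable {W : Type}

/-- what the set `S` has to contain: the formulas and the conjunctions of the monomials in `Ms` with at
most two more formulas -/
structure Big (v0 : W) (F : Set (Fm W)) (Ms : Set (Fm W →₀ ℕ)) (S : Set (Fm W)) : Prop where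
  /-- formulas -/
  mem : ∀ A ∈ F, A ∈ S
  /-- the empty monomial -/
  zero : 0 ∈ Ms
  /-- the conjunctions of the monomials -/
  one : ∀ m ∈ Ms, BS S v0 m
  /-- the conjunctions of the monomials with two more formulas -/
  two : ∀ m ∈ Ms, ∀ A ∈ F, ∀ B ∈ F, BS S v0 (m + Finsupp.single A 1 + Finsupp.single B 1)

variable {E U : Type} [Fintype E] [DecidableEq E] [Fintype U] [DecidableEq U]
variable {src tgt : E → U} {u0 : U} {K : Type} [Field K]
  {val : Fm W → Finset (Sym2 (VH E)) → Option Bool} {S Ax : Set (Fm W)} {d w : ℕ}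

theorem Big.add_one {v0 : W} {F : Set (Fm W)} {Ms : Set (Fm W →₀ ℕ)} (hB : Big v0 F Ms S)
    {m : Fm W →₀ ℕ} (hm : m ∈ Ms) {A : Fm W} (hA : A ∈ F) :
    BS S v0 (m + Finsupp.single A 1) := by
  refine (hB.two m hm A hA A hA).congr ?_
  ext Y
  rw [mem_support_add, mem_support_add, mem_support_single one_ne_zero]
  tauto

/-- the label of the conjunction with one more formula -/
theorem pz_add (h2 : (2 : K) ≠ 0) (hGH : GH src tgt d w) (hW : World2 S Ax w (VH E) val)
    {v0 : W} {F : Set (Fm W)} {Ms : Set (Fm W →₀ ℕ)} (hB : Big v0 F Ms S)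
    {m : Fm W →₀ ℕ} (hm : m ∈ Ms) {A : Fm W} (hA : A ∈ F) {k : ℕ} (hk : k ≤ 6 * L1 w) :
    KZ src tgt d (sgn K src tgt u0) k
      (fun a => rb K (lb src tgt u0 val w a (Bm v0 (m + Finsupp.single A 1)))
        - rb K (lb src tgt u0 val w a A) * rb K (lb src tgt u0 val w a (Bm v0 m))) := by
  refine pz_insert h2 hGH hW v0 (fun Y => ?_) (hB.add_one hm hA) (hB.one m hm) hk
  rw [mem_support_add, mem_support_single one_ne_zero]
  tauto

/-- the label of the conjunction with two more formulas -/
theorem pz_add2 (h2 : (2 : K) ≠ 0) (hGH : GH src tgt d w) (hW : World2 S Ax w (VH E) val)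
    {v0 : W} {F : Set (Fm W)} {Ms : Set (Fm W →₀ ℕ)} (hB : Big v0 F Ms S)
    {m : Fm W →₀ ℕ} (hm : m ∈ Ms) {A B : Fm W} (hA : A ∈ F) (hB' : B ∈ F) {k : ℕ}
    (hk : k ≤ 5 * L1 w) :
    KZ src tgt d (sgn K src tgt u0) k
      (fun a => rb K (lb src tgt u0 val w a (Bm v0 (m + Finsupp.single A 1 + Finsupp.single B 1)))
        - rb K (lb src tgt u0 val w a B) * (rb K (lb src tgt u0 val w a A)
          * rb K (lb src tgt u0 val w a (Bm v0 m)))) := by
  have e1 := pz_insert (K := K) (u0 := u0) h2 hGH hW v0 (m := m + Finsupp.single A 1)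
    (m' := m + Finsupp.single A 1 + Finsupp.single B 1) (A := B) (fun Y => by
      rw [mem_support_add (m := m + Finsupp.single A 1), mem_support_single one_ne_zero]
      tauto) (hB.two m hm A hA B hB') (hB.add_one hm hA) (k := k) (by omega)
  have e2 := KZ_mul h2 (kdg_rb (K := K) (u0 := u0) (val := val) hGH B) (k := k)
    (pz_add (u0 := u0) h2 hGH hW hB hm hA (k := k + L1 w) (by omega))
  have e3 := KZ_add e1 e2
  convert e3 using 2
  ring

/-- relations between few labels, times a label -/
theorem pk_mul (h2 : (2 : K) ≠ 0) (hGH : GH src tgt d w) (hW : World2 S Ax w (VH E) val)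
    (l : List (Fm W)) (hl : ∀ A ∈ l, A ∈ S) (h6 : l.length ≤ 6) (G : (Fm W → Bool) → K)
    (hG : ∀ x y, (∀ A ∈ l, x A = y A) → G x = G y)
    (h0 : ∀ x : Fm W → Bool, ∀ M, IsM M → (∀ A ∈ l, val A M = some (x A)) → G x = 0)
    (B : Fm W) {k : ℕ} (hk : k ≤ 5 * L1 w) :
    KZ src tgt d (sgn K src tgt u0) k
      (fun a => rb K (lb src tgt u0 val w a B) * G (lb src tgt u0 val w a)) :=
  KZ_mul h2 (kdg_rb hGH B) (pk h2 hGH hW.vals l hl h6 G hG h0 (by omega))

/-- multiples of the axioms -/
theorem ax_zero (h2 : (2 : K) ≠ 0) (hGH : GH src tgt d w) (hW : World2 S Ax w (VH E) val)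
    {v0 : W} {F : Set (Fm W)} {Ms : Set (Fm W →₀ ℕ)} (hB : Big v0 F Ms S) {C : ℕ → Fm W}
    (hC : Set.range C ⊆ Ax) {m : Fm W →₀ ℕ} (hm : m ∈ Ms) {p : MvPolynomial (Fm W) K}
    (hp : FAx K C F p) {k : ℕ} (hk : k ≤ 5 * L1 w) :
    KZ src tgt d (sgn K src tgt u0) k
      (fun a => phi K src tgt u0 val w v0 a (MvPolynomial.monomial m 1 * p)) := by
  have hk' : k ≤ 6 * L1 w := by omega
  cases hp with
  | bool A hA =>
    have h1 : (fun a => phi K src tgt u0 val w v0 a (MvPolynomial.monomial m 1 * (X A ^ 2 - X A)))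
        = fun _ => (0 : K) * 1 := by
      funext a
      rw [mul_sub, map_sub, pow_two, ← mul_assoc, mon_mul_X, mon_mul_X, phi_mon, phi_mon,
        Bm_congr v0 (m := m + Finsupp.single A 1 + Finsupp.single A 1)
          (m' := m + Finsupp.single A 1), sub_self, zero_mul]
      ext Y
      rw [mem_support_add, mem_support_add, mem_support_single one_ne_zero]
      tauto
    rw [h1]
    intro R _
    have h3 : (fun z : E → Bool => kchi K R z * ((0 : K) * 1)) = fun z => 0 * kchi K R z := by
      funext z; ring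
    rw [h3, kEt_smul, zero_mul]
  | neg A hA' hA =>
    have e1 := pz_add (K := K) (u0 := u0) h2 hGH hW hB hm hA hk'
    have e2 := pz_add (K := K) (u0 := u0) h2 hGH hW hB hm hA' hk'
    have e3 := pk_mul (K := K) (u0 := u0) h2 hGH hW [Fm.neg A, A] (by
      intro Y hY
      simp only [List.mem_cons, List.not_mem_nil, or_false] at hY
      rcases hY with rfl | rfl
      · exact hB.mem _ hA
      · exact hB.mem _ hA') (by simp) (fun x => rb K (x (Fm.neg A)) - (1 - rb K (x A)))
      (fun x y hxy => by simp only [hxy (Fm.neg A) (by simp), hxy A (by simp)])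
      (fun x M hM hv => by
        rw [hW.coh.neg A (hB.mem _ hA') (hB.mem _ hA) M hM _ _ (hv A (by simp))
          (hv (Fm.neg A) (by simp))]
        cases x A <;> simp [rb]) (Bm v0 m) hk
    have e4 := KZ_add (KZ_add e1 e2) e3
    convert e4 using 2 with a
    rw [mul_sub, mul_sub, map_sub, map_sub, mul_one, mon_mul_X, mon_mul_X, phi_mon, phi_mon,
      phi_mon]
    ring
  | imp A B hA1 hA2 hA =>
    have e1 := pz_add (K := K) (u0 := u0) h2 hGH hW hB hm hA hk'
    have e2 := pz_add (K := K) (u0 := u0) h2 hGH hW hB hm hA1 hk'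
    have e5 := pz_add2 (K := K) (u0 := u0) h2 hGH hW hB hm hA1 hA2 hk
    have e3 := pk_mul (K := K) (u0 := u0) h2 hGH hW [Fm.imp A B, A, B] (by
      intro Y hY
      simp only [List.mem_cons, List.not_mem_nil, or_false] at hY
      rcases hY with rfl | rfl | rfl
      · exact hB.mem _ hA
      · exact hB.mem _ hA1
      · exact hB.mem _ hA2) (by simp)
      (fun x => rb K (x (Fm.imp A B)) - (1 - rb K (x A) * (1 - rb K (x B))))
      (fun x y hxy => by
        simp only [hxy (Fm.imp A B) (by simp), hxy A (by simp), hxy B (by simp)])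
      (fun x M hM hv => by
        rw [hW.coh.imp A B (hB.mem _ hA1) (hB.mem _ hA2) (hB.mem _ hA) M hM _ _ _
          (hv A (by simp)) (hv B (by simp)) (hv (Fm.imp A B) (by simp))]
        cases x A <;> cases x B <;> simp [rb]) (Bm v0 m) hk
    have e4 := KZ_add (KZ_add (KZ_add e1 e2) e3) (KZ_smul (-1) e5)
    convert e4 using 2 with a
    have h5 : MvPolynomial.monomial m (1 : K) * (X (Fm.imp A B) - (1 - X A * (1 - X B)))
        = MvPolynomial.monomial m 1 * X (Fm.imp A B) - MvPolynomial.monomial m 1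
          + MvPolynomial.monomial m 1 * X A - MvPolynomial.monomial m 1 * X A * X B := by ring
    rw [h5, map_sub, map_add, map_sub, mon_mul_X, mon_mul_X, mon_mul_X, phi_mon, phi_mon,
      phi_mon, phi_mon]
    ring
  | hyp i hA =>
    have e1 := pz_add (K := K) (u0 := u0) h2 hGH hW hB hm hA hk'
    have e3 := pk_mul (K := K) (u0 := u0) h2 hGH hW [C i] (by
      intro Y hY
      simp only [List.mem_cons, List.not_mem_nil, or_false] at hY
      rw [hY]
      exact hB.mem _ hA) (by simp) (fun x => rb K (x (C i)) - 1)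
      (fun x y hxy => by simp only [hxy (C i) (by simp)])
      (fun x M hM hv => by
        have h3 := hW.ax (C i) (hB.mem _ hA) (hC ⟨i, rfl⟩) M hM
        rw [hv (C i) (by simp)] at h3
        cases hx : x (C i)
        · rw [hx] at h3
          exact absurd rfl h3
        · simp [rb]) (Bm v0 m) hk
    have e4 := KZ_add e1 e3
    convert e4 using 2 with a
    rw [mul_sub, map_sub, mul_one, mon_mul_X, phi_mon, phi_mon]
    ring

end Pool.Agent.H3.Alg2
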