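import Mathlib
import Pool.Agent.H3.Ac.FixA
import Pool.Agent.H3.Alg2.AxZ
import Pool.Agent.H3.Alg.Lst
import Pool.Agent.H1.FX.FinX

set_option autoImplicit false
set_option linter.unusedSectionVars false

/-!
# The list of formulas: closed except below the atoms
-/

namespace Pool.Agent.H3.Alg2

open Finset Pool.Agent.H3.Frg Pool.Agent.H3.Frg2 Pool.Agent.H3.Ac Pool.Agent.H3.Wd
  Pool.Agent.H3.Alg Pool.Agent.H1.FX MvPolynomial

variable {W : Type}

theorem bigL_clo {v0 : W} {F : Finset (Fm W)} {T : Finset (Fm W →₀ ℕ)} {G : Set (Fm W)}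
    (hF : CloOff G (F : Set (Fm W))) (hT : ∀ m ∈ T, ∀ A ∈ m.support, A ∈ F) :
    CloOff G {A | A ∈ bigL v0 F T} := by
  have hv : Fm.var v0 ∈ bigL v0 F T := mem_bigL.2 (Or.inr (Or.inr (Or.inl rfl)))
  have hi : Fm.imp (Fm.var v0) (Fm.var v0) ∈ bigL v0 F T := mem_bigL.2 (Or.inr (Or.inl rfl))
  have hch : ∀ m ∈ T, ∀ X, X ∈ chn v0 m.support.toList → X ∈ bigL v0 F T := fun m hm X hX =>
    mem_bigL.2 (Or.inr (Or.inr (Or.inr ⟨m, hm, Or.inr hX⟩)))
  constructor
  · intro A hA hG
    rcases mem_bigL.1 hA with h | h | h | ⟨m, hm, h | h⟩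
    · exact mem_bigL.2 (Or.inl (hF.1 A h hG))
    · exact absurd h (by simp)
    · exact absurd h (by simp)
    · rw [Bm_eq] at h
      rw [Fm.neg.inj h]
      exact hch m hm _ (chn_self v0 _)
    · rcases mem_chn v0 _ h with h1 | ⟨B, _, Y, _, h1⟩
      · have h2 : A = Fm.imp (Fm.var v0) (Fm.var v0) := Fm.neg.inj h1
        rw [h2]
        exact hi
      · exact absurd h1 (by simp)
  · intro A B hA hG
    rcases mem_bigL.1 hA with h | h | h | ⟨m, hm, h | h⟩
    · exact ⟨mem_bigL.2 (Or.inl (hF.2 A B h hG).1), mem_bigL.2 (Or.inl (hF.2 A B h hG).2)⟩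
    · obtain ⟨h1, h2⟩ := Fm.imp.inj h
      rw [h1, h2]
      exact ⟨hv, hv⟩
    · exact absurd h (by simp)
    · rw [Bm_eq] at h
      exact absurd h (by simp)
    · rcases mem_chn v0 _ h with h1 | ⟨B', hB', Y, hY, h1⟩
      · exact absurd h1 (by simp [Alg.ch, bot])
      · obtain ⟨e1, e2⟩ := Fm.imp.inj h1
        rw [e1, e2]
        exact ⟨mem_bigL.2 (Or.inl (hT m hm B' (Finset.mem_toList.1 hB'))), hch m hm Y hY⟩

theorem bigL_BS {v0 : W} {F : Finset (Fm W)} {T : Finset (Fm W →₀ ℕ)}
    (hT : ∀ m ∈ T, ∀ A ∈ m.support, A ∈ F) {m : Fm W →₀ ℕ} (hm : m ∈ T) :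
    BS {A | A ∈ bigL v0 F T} v0 m := by
  refine ⟨mem_bigL.2 (Or.inr (Or.inr (Or.inr ⟨m, hm, Or.inl rfl⟩))), ?_, ?_, ?_, ?_⟩
  · intro A hA
    exact mem_bigL.2 (Or.inl (hT m hm A (Finset.mem_toList.1 hA)))
  · intro X hX
    exact mem_bigL.2 (Or.inr (Or.inr (Or.inr ⟨m, hm, Or.inr hX⟩)))
  · exact mem_bigL.2 (Or.inr (Or.inl rfl))
  · exact mem_bigL.2 (Or.inr (Or.inr (Or.inl rfl)))

open scoped Classical in
/-- the list for a set of formulas and a set of monomials -/
theorem exists_big2 (v0 : W) (F0 F : Finset (Fm W)) (hFF : F0 ⊆ F) {G : Set (Fm W)}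
    (hF : CloOff G (F : Set (Fm W)))
    (Ms : Finset (Fm W →₀ ℕ)) (hMs : ∀ m ∈ Ms, ∀ A ∈ m.support, A ∈ F0) {P : Fm W → Prop} {D : ℕ}
    (hD : ∀ A ∈ F, LDep P D A) :
    ∃ S : List (Fm W), CloOff G {A | A ∈ S} ∧ S.length ≤ 4 * (F.card + Ms.card + 2) ^ 4 ∧
      (∀ A ∈ S, LDep P (D + 3) A) ∧
      Big v0 (F0 : Set (Fm W)) {m | m = 0 ∨ m ∈ Ms} {A | A ∈ S} ∧
      ∀ m1 ∈ Ms, ∀ m2 ∈ Ms, BS {A | A ∈ S} v0 (m1 + m2) := by
  replace hMs : ∀ m ∈ Ms, ∀ A ∈ m.support, A ∈ F := fun m hm A hA => hFF (hMs m hm A hA)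
  set M0 : Finset (Fm W →₀ ℕ) := insert 0 Ms with hM0
  have hM0s : ∀ m ∈ M0, ∀ A ∈ m.support, A ∈ F := by
    intro m hm A hA
    rcases Finset.mem_insert.1 hm with rfl | hm
    · simp at hA
    · exact hMs m hm A hA
  set T2 : Finset (Fm W →₀ ℕ) := (M0 ×ˢ (F ×ˢ F)).image
    fun x => x.1 + Finsupp.single x.2.1 1 + Finsupp.single x.2.2 1 with hT2
  set T3 : Finset (Fm W →₀ ℕ) := (Ms ×ˢ Ms).image fun x => x.1 + x.2 with hT3
  set T : Finset (Fm W →₀ ℕ) := M0 ∪ (T2 ∪ T3) with hTd
  have hT : ∀ m ∈ T, ∀ A ∈ m.support, A ∈ F := by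
    intro m hm A hA
    rcases Finset.mem_union.1 hm with h | h
    · exact hM0s m h A hA
    rcases Finset.mem_union.1 h with h | h
    · rw [hT2, Finset.mem_image] at h
      obtain ⟨⟨m', B, C⟩, h1, rfl⟩ := h
      rw [Finset.mem_product, Finset.mem_product] at h1
      rw [mem_support_add, mem_support_add, mem_support_single one_ne_zero,
        mem_support_single one_ne_zero] at hA
      rcases hA with (hA | hA) | hA
      · exact hM0s m' h1.1 A hA
      · rw [hA]; exact h1.2.1
      · rw [hA]; exact h1.2.2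
    · rw [hT3, Finset.mem_image] at h
      obtain ⟨⟨m1, m2⟩, h1, rfl⟩ := h
      rw [Finset.mem_product] at h1
      rw [mem_support_add] at hA
      rcases hA with hA | hA
      · exact hMs m1 h1.1 A hA
      · exact hMs m2 h1.2 A hA
  refine ⟨bigL v0 F T, bigL_clo hF hT, ?_, bigL_ldep v0 F T hT hD, ⟨?_, ?_, ?_, ?_⟩, ?_⟩
  · refine (bigL_length v0 F T hT).trans ?_
    have h1 : M0.card ≤ Ms.card + 1 := Finset.card_insert_le _ _
    have h2 : T2.card ≤ (Ms.card + 1) * (F.card * F.card) := by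
      refine Finset.card_image_le.trans ?_
      rw [Finset.card_product, Finset.card_product]
      exact Nat.mul_le_mul_right _ h1
    have h3 : T3.card ≤ Ms.card * Ms.card := by
      refine Finset.card_image_le.trans ?_
      rw [Finset.card_product]
    have h4 : T.card ≤ (Ms.card + 1) + ((Ms.card + 1) * (F.card * F.card)
        + Ms.card * Ms.card) := by
      refine (Finset.card_union_le _ _).trans ?_
      have := Finset.card_union_le T2 T3
      omega
    set N := F.card with hN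
    set M := Ms.card with hM
    obtain ⟨x, hx⟩ : ∃ x, x = N + M + 2 := ⟨_, rfl⟩
    have hx2 : 2 ≤ x := by omega
    have e1 : T.card ≤ 3 * x ^ 3 := by
      refine h4.trans ?_
      have a1 : M + 1 ≤ x := by omega
      have a2 : N ≤ x := by omega
      have a3 : M ≤ x := by omega
      have b1 : (M + 1) * (N * N) ≤ x * (x * x) :=
        Nat.mul_le_mul a1 (Nat.mul_le_mul a2 a2)
      have b2 : M * M ≤ x * x := Nat.mul_le_mul a3 a3
      have b3 : x ≤ x ^ 3 := Nat.le_self_pow (by omega) x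
      have b4 : x * x ≤ x ^ 3 := by
        rw [← pow_two]
        exact Nat.pow_le_pow_right (by omega) (by omega)
      have b5 : x * (x * x) = x ^ 3 := by ring
      omega
    have e2 : T.card * (N + 2) ≤ 3 * x ^ 3 * x := Nat.mul_le_mul e1 (by omega)
    have e3 : N + 2 ≤ x ^ 4 := (show N + 2 ≤ x by omega).trans (Nat.le_self_pow (by omega) x)
    have e4 : 3 * x ^ 3 * x = 3 * x ^ 4 := by ring
    rw [← hx]
    omega
  · intro A hA
    exact mem_bigL.2 (Or.inl (hFF hA))
  · exact Or.inl rfl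
  · intro m hm
    refine bigL_BS hT (Finset.mem_union_left _ ?_)
    rw [hM0, Finset.mem_insert]
    exact hm
  · intro m hm A hA B hB
    refine bigL_BS hT (Finset.mem_union_right _ (Finset.mem_union_left _ ?_))
    rw [hT2, Finset.mem_image]
    refine ⟨(m, A, B), Finset.mem_product.2 ⟨?_, Finset.mem_product.2 ⟨hFF hA, hFF hB⟩⟩, rfl⟩
    show m ∈ M0
    rw [hM0, Finset.mem_insert]
    exact hm
  · intro m1 h1 m2 h2
    refine bigL_BS hT (Finset.mem_union_right _ (Finset.mem_union_right _ ?_))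
    rw [hT3, Finset.mem_image]
    exact ⟨(m1, m2), Finset.mem_product.2 ⟨h1, h2⟩, rfl⟩

open scoped Classical in
/-- the list of the formulas with constants for the atoms -/
theorem exists_star (v0 : W) (Gl Vl : List (Fm W)) (hV : CloOff {A | A ∈ Gl} {A | A ∈ Vl}) :
    ∃ S : List (Fm W), SubCl {A | A ∈ S} ∧ cst v0 false ∈ S ∧
      (∀ b, ∀ A ∈ Vl, star v0 Gl b A ∈ S) ∧ S.length ≤ 2 ^ Gl.length * Vl.length + 3 ∧
      ∀ A ∈ S, (∃ b, ∃ X ∈ Vl, star v0 Gl b X = A) ∨ A = Fm.var v0 ∨ A = cst v0 true ∨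
        A = cst v0 false := by
  obtain ⟨S, hS⟩ : ∃ S : List (Fm W), S = (Gl.sublists.flatMap fun B' =>
      Vl.map (star v0 Gl fun X => decide (X ∈ B'))) ++
      [Fm.var v0, cst v0 true, cst v0 false] := ⟨_, rfl⟩
  have hSm : ∀ A, A ∈ S ↔ (∃ B' ∈ Gl.sublists, ∃ X ∈ Vl,
      star v0 Gl (fun X => decide (X ∈ B')) X = A) ∨
      A = Fm.var v0 ∨ A = cst v0 true ∨ A = cst v0 false := by
    intro A
    rw [hS, List.mem_append, List.mem_flatMap]
    simp only [List.mem_map, List.mem_cons, List.not_mem_nil, or_false]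
  have hst : ∀ b : Fm W → Bool, ∀ A ∈ Vl, star v0 Gl b A ∈ S := by
    intro b A hA
    rw [hSm]
    refine Or.inl ⟨Gl.filter b, List.mem_sublists.2 List.filter_sublist, A, hA, ?_⟩
    refine star_congr A fun X hX _ => ?_
    cases hb : b X
    · simp [List.mem_filter, hb]
    · simp [List.mem_filter, hb, hX]
  have hcf : cst v0 false ∈ S := (hSm _).2 (Or.inr (Or.inr (Or.inr rfl)))
  have hct : cst v0 true ∈ S := (hSm _).2 (Or.inr (Or.inr (Or.inl rfl)))
  have hcv : Fm.var v0 ∈ S := (hSm _).2 (Or.inr (Or.inl rfl))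
  refine ⟨S, ⟨fun A hA => ?_, fun A B' hA => ?_⟩, hcf, hst, ?_, fun A hA => ?_⟩
  · rcases (hSm _).1 hA with ⟨B', hB', X, hX, h1⟩ | h1 | h1 | h1
    · by_cases hXG : X ∈ Gl
      · rw [star_mem hXG] at h1
        cases hb : decide (X ∈ B')
        · rw [hb] at h1
          have h2 : Fm.neg (Fm.imp (Fm.var v0) (Fm.var v0)) = Fm.neg A := h1
          rw [← Fm.neg.inj h2]
          exact hct
        · rw [hb] at h1
          exact absurd h1 (by simp [cst])
      · cases X with
        | var x => rw [star_var hXG] at h1; exact absurd h1 (by simp)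
        | neg Y =>
          rw [star_neg hXG] at h1
          rw [← Fm.neg.inj h1]
          exact hst _ _ (hV.1 _ hX hXG)
        | imp Y Z => rw [star_imp hXG] at h1; exact absurd h1 (by simp)
    · exact absurd h1 (by simp)
    · exact absurd h1 (by simp [cst])
    · have h2 : Fm.neg A = Fm.neg (Fm.imp (Fm.var v0) (Fm.var v0)) := h1
      rw [Fm.neg.inj h2]
      exact hct
  · rcases (hSm _).1 hA with ⟨B'', hB'', X, hX, h1⟩ | h1 | h1 | h1
    · by_cases hXG : X ∈ Gl
      · rw [star_mem hXG] at h1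
        cases hb : decide (X ∈ B'')
        · rw [hb] at h1
          exact absurd h1 (by simp [cst])
        · rw [hb] at h1
          have h2 : Fm.imp (Fm.var v0) (Fm.var v0) = Fm.imp A B' := h1
          have h3 := Fm.imp.inj h2
          rw [← h3.1, ← h3.2]
          exact ⟨hcv, hcv⟩
      · cases X with
        | var x => rw [star_var hXG] at h1; exact absurd h1 (by simp)
        | neg Y => rw [star_neg hXG] at h1; exact absurd h1 (by simp)
        | imp Y Z =>
          rw [star_imp hXG] at h1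
          have h3 := Fm.imp.inj h1
          rw [← h3.1, ← h3.2]
          exact ⟨hst _ _ (hV.2 _ _ hX hXG).1, hst _ _ (hV.2 _ _ hX hXG).2⟩
    · exact absurd h1 (by simp)
    · have h2 : Fm.imp A B' = Fm.imp (Fm.var v0) (Fm.var v0) := h1
      have h3 := Fm.imp.inj h2
      rw [h3.1, h3.2]
      exact ⟨hcv, hcv⟩
    · exact absurd h1 (by simp [cst])
  · rw [hS, List.length_append]
    have h2 := length_flatMap_le Gl.sublists
      (fun B' => Vl.map (star v0 Gl fun X => decide (X ∈ B'))) Vl.length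
      (fun B' _ => by rw [List.length_map])
    rw [List.length_sublists] at h2
    have h3 : ([Fm.var v0, cst v0 true, cst v0 false] : List (Fm W)).length = 3 := rfl
    omega
  · rcases (hSm _).1 hA with ⟨B', _, X, hX, h1⟩ | h1
    · exact Or.inl ⟨_, X, hX, h1⟩
    · exact Or.inr h1

/-- the lines of a refutation have variables in `F` -/
theorem pc_supported {K : Type} [Field K] {C : ℕ → Fm W} {F : Set (Fm W)} {L : ℕ}
    {pf : Fin L → MvPolynomial (Fm W) K} (hpf : PCRef K C F pf) (i : Fin L) :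
    pf i ∈ supported K F := by
  have key : ∀ p : MvPolynomial (Fm W) K, FAx K C F p → p ∈ supported K F := by
    intro p hp
    cases hp with
    | bool A hA =>
      exact sub_mem (pow_mem (X_mem_supported.2 hA) 2) (X_mem_supported.2 hA)
    | neg A hA' hA =>
      exact sub_mem (X_mem_supported.2 hA) (sub_mem (one_mem _)
        (X_mem_supported.2 hA'))
    | imp A B h1 h2 hA =>
      exact sub_mem (X_mem_supported.2 hA) (sub_mem (one_mem _)
        (mul_mem (X_mem_supported.2 h1) (sub_mem (one_mem _) (X_mem_supported.2 h2))))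
    | hyp i hA => exact sub_mem (X_mem_supported.2 hA) (one_mem _)
  have h : ∀ n : ℕ, ∀ i : Fin L, (i : ℕ) = n → pf i ∈ supported K F := by
    intro n
    induction n using Nat.strong_induction_on with
    | _ n ih =>
      intro i hi
      rcases hpf.1 i with h | ⟨j, hj, k, hk, α, β, h⟩ | ⟨j, hj, A, hA, h⟩
      · exact key _ h
      · rw [h]
        exact add_mem (Subalgebra.smul_mem _ (ih j (by rw [← hi]; exact hj) j rfl) α)
          (Subalgebra.smul_mem _ (ih k (by rw [← hi]; exact hk) k rfl) β)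
      · rw [h]
        exact mul_mem (X_mem_supported.2 hA) (ih j (by rw [← hi]; exact hj) j rfl)
  exact h i i rfl

/-- subformulas are shorter -/
theorem subs_enc (X : Fm ℕ) : ∀ Y ∈ X.subs, Y.enc.length ≤ X.enc.length := by
  induction X with
  | var x =>
    intro Y hY
    simp only [Fm.subs, List.mem_singleton] at hY
    rw [hY]
  | neg A ih =>
    intro Y hY
    simp only [Fm.subs, List.mem_cons] at hY
    rcases hY with rfl | hY
    · exact le_rfl
    · have := ih Y hY
      simp only [Fm.enc, List.length_cons]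
      omega
  | imp A B ihA ihB =>
    intro Y hY
    simp only [Fm.subs, List.mem_cons, List.mem_append] at hY
    rcases hY with rfl | hY | hY
    · exact le_rfl
    · have := ihA Y hY
      simp only [Fm.enc, List.length_cons, List.length_append]
      omega
    · have := ihB Y hY
      simp only [Fm.enc, List.length_cons, List.length_append]
      omega

end Pool.Agent.H3.Alg2
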