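import Mathlib
import Pool.Agent.H3.Alg.FinP
import Pool.Agent.H3.Alg2.Lst
import Pool.Agent.H3.Alg2.Atm

set_option autoImplicit false
set_option linter.unusedSectionVars false

/-!
# The world on an expander for an algebraic proof with a few arbitrary formulas as atoms
-/

namespace Pool.Agent.H3.Alg2

open Finset Filter Topology Pool.Agent.H3.Frg Pool.Agent.H3.Frg2 Pool.Agent.H3.Frg3
  Pool.Agent.H3.Frg4 Pool.Agent.H3.Ac Pool.Agent.H3.Wd Pool.Agent.H3.Alg Pool.Agent.H1.FX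

/-- the formulas with the subformulas of the short atoms -/
theorem exists_clo {G F : Finset (Fm ℕ)} (hF : CloOff (G : Set (Fm ℕ)) (F : Set (Fm ℕ)))
    {B : ℝ} (hB : 0 ≤ B) :
    ∃ (F1 : Finset (Fm ℕ)) (Gl : List (Fm ℕ)), F ⊆ F1 ∧ CloOff {A | A ∈ Gl} (F1 : Set (Fm ℕ)) ∧
      (∀ A ∈ Gl, ¬ (A.enc.length : ℝ) ≤ B) ∧ Gl.length ≤ G.card ∧
      (F1.card : ℝ) ≤ F.card + G.card * B ∧
      (∀ A ∈ G, (A.enc.length : ℝ) ≤ B ∨ A ∈ Gl) ∧
      ∀ A ∈ F1, A ∈ F ∨ (A.enc.length : ℝ) ≤ B := by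
  classical
  obtain ⟨Gs, hGs⟩ : ∃ Gs : Finset (Fm ℕ), Gs = G.filter fun A => (A.enc.length : ℝ) ≤ B :=
    ⟨_, rfl⟩
  have hGsm : ∀ A, A ∈ Gs ↔ A ∈ G ∧ (A.enc.length : ℝ) ≤ B := fun A => by
    rw [hGs, Finset.mem_filter]
  refine ⟨F ∪ Gs.biUnion fun X => X.subs.toFinset,
    G.toList.filter fun A => decide (¬ (A.enc.length : ℝ) ≤ B), Finset.subset_union_left,
    ⟨?_, ?_⟩, ?_, ?_, ?_, ?_, ?_⟩
  · intro A hA hnG
    rw [Finset.mem_coe, Finset.mem_union, Finset.mem_biUnion] at hA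
    rw [Finset.mem_coe, Finset.mem_union, Finset.mem_biUnion]
    rcases hA with hA | ⟨X, hX, hA⟩
    · by_cases hG : Fm.neg A ∈ G
      · right
        have hs : ((Fm.neg A).enc.length : ℝ) ≤ B := by
          by_contra hs
          refine hnG ?_
          show Fm.neg A ∈ G.toList.filter _
          rw [List.mem_filter, decide_eq_true_eq, Finset.mem_toList]
          exact ⟨hG, hs⟩
        refine ⟨Fm.neg A, (hGsm _).2 ⟨hG, hs⟩, ?_⟩
        rw [List.mem_toFinset]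
        exact (subs_cl (Fm.neg A)).1 A (self_subs _)
      · exact Or.inl (hF.1 A hA hG)
    · right
      refine ⟨X, hX, ?_⟩
      rw [List.mem_toFinset] at hA ⊢
      exact (subs_cl X).1 A hA
  · intro A A' hA hnG
    rw [Finset.mem_coe, Finset.mem_union, Finset.mem_biUnion] at hA
    rw [Finset.mem_coe, Finset.mem_union, Finset.mem_biUnion, Finset.mem_coe, Finset.mem_union,
      Finset.mem_biUnion]
    rcases hA with hA | ⟨X, hX, hA⟩
    · by_cases hG : Fm.imp A A' ∈ G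
      · have hs : ((Fm.imp A A').enc.length : ℝ) ≤ B := by
          by_contra hs
          refine hnG ?_
          show Fm.imp A A' ∈ G.toList.filter _
          rw [List.mem_filter, decide_eq_true_eq, Finset.mem_toList]
          exact ⟨hG, hs⟩
        have h1 := (subs_cl (Fm.imp A A')).2 A A' (self_subs _)
        refine ⟨Or.inr ⟨Fm.imp A A', (hGsm _).2 ⟨hG, hs⟩, ?_⟩,
          Or.inr ⟨Fm.imp A A', (hGsm _).2 ⟨hG, hs⟩, ?_⟩⟩
        · rw [List.mem_toFinset]
          exact h1.1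
        · rw [List.mem_toFinset]
          exact h1.2
      · exact ⟨Or.inl (hF.2 A A' hA hG).1, Or.inl (hF.2 A A' hA hG).2⟩
    · rw [List.mem_toFinset] at hA
      have h1 := (subs_cl X).2 A A' hA
      refine ⟨Or.inr ⟨X, hX, ?_⟩, Or.inr ⟨X, hX, ?_⟩⟩
      · rw [List.mem_toFinset]
        exact h1.1
      · rw [List.mem_toFinset]
        exact h1.2
  · intro A hA
    rw [List.mem_filter, decide_eq_true_eq] at hA
    exact hA.2
  · rw [← Finset.length_toList]
    exact List.length_filter_le _ _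
  · have h1 : ∀ X ∈ Gs, ((X.subs.toFinset.card : ℕ) : ℝ) ≤ B := by
      intro X hX
      have h2 : X.subs.toFinset.card ≤ X.enc.length := by
        refine (List.toFinset_card_le _).trans ?_
        rw [length_subs]
        exact len_le_enc _
      refine le_trans ?_ ((hGsm X).1 hX).2
      exact_mod_cast h2
    have h3 : ((Gs.biUnion fun X => X.subs.toFinset).card : ℝ) ≤ G.card * B := by
      have h4 : ((Gs.biUnion fun X => X.subs.toFinset).card : ℝ)
          ≤ ∑ X ∈ Gs, ((X.subs.toFinset.card : ℕ) : ℝ) := by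
        exact_mod_cast Finset.card_biUnion_le
      refine h4.trans ((Finset.sum_le_card_nsmul _ _ _ h1).trans ?_)
      rw [nsmul_eq_mul]
      refine mul_le_mul_of_nonneg_right ?_ hB
      exact_mod_cast Finset.card_le_card (show Gs ⊆ G from fun X hX => ((hGsm X).1 hX).1)
    have h5 := Finset.card_union_le F (Gs.biUnion fun X => X.subs.toFinset)
    have h6 : ((F ∪ Gs.biUnion fun X => X.subs.toFinset).card : ℝ)
        ≤ F.card + (Gs.biUnion fun X => X.subs.toFinset).card := by exact_mod_cast h5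
    linarith
  · intro A hA
    by_cases h : (A.enc.length : ℝ) ≤ B
    · exact Or.inl h
    · right
      rw [List.mem_filter, decide_eq_true_eq, Finset.mem_toList]
      exact ⟨hA, h⟩
  · intro A hA
    rw [Finset.mem_union, Finset.mem_biUnion] at hA
    rcases hA with hA | ⟨X, hX, hA⟩
    · exact Or.inl hA
    · right
      rw [List.mem_toFinset] at hA
      refine le_trans ?_ ((hGsm X).1 hX).2
      exact_mod_cast subs_enc X A hA

/-- the world for an algebraic proof -/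
theorem fin_big2 (θ : ℝ) (hθ : θ < 2) (D : ℕ) :
    ∃ (k : ℕ) (ε : ℝ), 0 < ε ∧ ∃ (d : ℕ → ℕ) (C : ℕ → ℕ → Fm ℕ) (τ : ℕ → Fm ℕ),
      (∀ n, τ n = Fm.neg (bigAnd (d n) (C n))) ∧
      (∀ n i, IsClause k (C n i)) ∧
      (∀ n x, (τ n).eval x = true) ∧
      (∀ n i, ∃ j, j < 2 ^ d n ∧ C n i = C n j) ∧
      Tendsto (fun n => (τ n).enc.length) atTop atTop ∧
      ∀ᶠ n in atTop, ∀ G F : Finset (Fm ℕ), (G.card : ℝ) ≤ ((τ n).enc.length : ℝ) ^ ε →
        CloOff (G : Set (Fm ℕ)) (F : Set (Fm ℕ)) →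
        (∀ A ∈ F, LDep (fun A => (A.enc.length : ℝ) ≤ ((τ n).enc.length : ℝ) ^ θ ∨ A ∈ G) D A) →
        ∀ Ms : Finset (Fm ℕ →₀ ℕ), (∀ m ∈ Ms, ∀ A ∈ m.support, A ∈ F) →
          (F.card + Ms.card : ℝ) < (2 : ℝ) ^ (((τ n).enc.length : ℝ) ^ ε) →
          ∃ (E U : Type) (_ : Fintype E) (_ : DecidableEq E) (_ : Fintype U) (_ : DecidableEq U)
            (src tgt : E → U) (_ : U) (d w : ℕ)
            (val : Fm ℕ → Finset (Sym2 (VH E)) → Option Bool) (S : Set (Fm ℕ)),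
            GH src tgt d w ∧ World2 S (Set.range (C n)) w (VH E) val ∧
            Big 0 (F : Set (Fm ℕ)) {m | m = 0 ∨ m ∈ Ms} S ∧
            ∀ m1 ∈ Ms, ∀ m2 ∈ Ms, BS S 0 (m1 + m2) := by
  obtain ⟨θ', hθ'⟩ : ∃ θ' : ℝ, θ' = max θ 1 := ⟨_, rfl⟩
  have hθ1 : 1 ≤ θ' := by rw [hθ']; exact le_max_right _ _
  have hθθ : θ ≤ θ' := by rw [hθ']; exact le_max_left _ _
  have hθ2 : θ' < 2 := by rw [hθ']; exact max_lt hθ (by norm_num)
  obtain ⟨k, ε0, hε0, d, C, τ, w, h1, h2, h3, hCl, hCm, h4, h5, h6⟩ := finalW3 θ' hθ2 (D + 3) 3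
  obtain ⟨ε, hε⟩ : ∃ ε : ℝ, ε = ε0 / 2 := ⟨_, rfl⟩
  have hεp : 0 < ε := by rw [hε]; linarith
  refine ⟨k, ε, hεp, d, C, τ, h1, h2, h3, hCm, h4, ?_⟩
  have hlim : Tendsto (fun n => ((τ n).enc.length : ℝ)) atTop atTop :=
    tendsto_natCast_atTop_atTop.comp h4
  have hlimε : Tendsto (fun n => ((τ n).enc.length : ℝ) ^ ε) atTop atTop :=
    (tendsto_rpow_atTop hεp).comp hlim
  -- eventually `x ^ p < 2 ^ (x ^ ε)`
  obtain ⟨p, hp⟩ : ∃ p : ℝ, p = ε + θ' + 1 := ⟨_, rfl⟩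
  have hev : ∀ᶠ x : ℝ in atTop, x ^ p < (2:ℝ) ^ (x ^ ε) := by
    have e1 : Tendsto (fun x : ℝ => x ^ ε) atTop atTop := tendsto_rpow_atTop hεp
    have e2 : ∀ᶠ z : ℝ in atTop, z ^ (p / ε) < (2:ℝ) ^ z := by
      have e3 := (isLittleO_rpow_exp_pos_mul_atTop (p / ε) (Real.log_pos one_lt_two)).bound
        (show (0:ℝ) < 1 / 2 by norm_num)
      filter_upwards [e3, eventually_gt_atTop 0] with z hz hz0
      rw [Real.norm_eq_abs, Real.norm_eq_abs, abs_of_nonneg (by positivity),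
        abs_of_nonneg (by positivity)] at hz
      have e4 : (2:ℝ) ^ z = Real.exp (Real.log 2 * z) := by
        rw [Real.rpow_def_of_pos (by norm_num)]
      rw [e4]
      have := Real.exp_pos (Real.log 2 * z)
      linarith
    filter_upwards [e1.eventually e2, eventually_gt_atTop 0] with x hx hx0
    rw [← Real.rpow_mul hx0.le, mul_div_cancel₀ _ hεp.ne'] at hx
    exact hx
  have hev2 : ∀ᶠ n in atTop, ∀ m : ℝ, m ≤ ((τ n).enc.length : ℝ) ^ ε → m ≤ (w n : ℝ) := by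
    filter_upwards [h6, hlim.eventually (eventually_ge_atTop 1)] with n h7 h8 m hm
    refine hm.trans (le_trans ?_ h7.1)
    exact Real.rpow_le_rpow_of_exponent_le h8 (by rw [hε]; linarith)
  filter_upwards [h6, hlim.eventually hev, hlim.eventually (eventually_ge_atTop 9),
    hlimε.eventually (eventually_ge_atTop 8), h5.eventually_ge_atTop (10 ^ 11), hev2]
    with n h7 h8 h9 h10 h11 h12
  intro G F hG hF hFD Ms hMs hlt
  classical
  obtain ⟨x, hx⟩ : ∃ x : ℝ, x = ((τ n).enc.length : ℝ) := ⟨_, rfl⟩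
  rw [← hx] at h7 h8 h9 h10 h12 hG hFD hlt
  have hx1 : 1 ≤ x := by linarith
  have hx0 : 0 < x := by linarith
  have hxe : x ^ ε0 = x ^ ε * x ^ ε := by
    rw [← Real.rpow_add hx0, hε]
    congr 1
    ring
  have hxx : x ≤ x ^ θ' := by
    calc x = x ^ (1 : ℝ) := (Real.rpow_one x).symm
      _ ≤ x ^ θ' := Real.rpow_le_rpow_of_exponent_le hx1 hθ1
  have hB0 : (0 : ℝ) ≤ x ^ θ' := by positivity
  obtain ⟨F1, Gl, c1, c2, c3, c4, c5, c6, c7⟩ := exists_clo hF hB0
  obtain ⟨P, hP⟩ : ∃ P : Fm ℕ → Prop, P = fun A => (A.enc.length : ℝ) ≤ x ^ θ' := ⟨_, rfl⟩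
  have hP1 : ∀ A, P (Fm.neg A) → P A := by
    intro A h
    rw [hP] at h ⊢
    simp only at h ⊢
    refine le_trans ?_ h
    have : A.enc.length ≤ (Fm.neg A).enc.length := by
      simp only [Fm.enc, List.length_cons]; omega
    exact_mod_cast this
  have hP2 : ∀ A B, P (Fm.imp A B) → P A ∧ P B := by
    intro A B' h
    rw [hP] at h ⊢
    simp only at h ⊢
    constructor
    · refine le_trans ?_ h
      have : A.enc.length ≤ (Fm.imp A B').enc.length := by
        simp only [Fm.enc, List.length_cons, List.length_append]; omega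
      exact_mod_cast this
    · refine le_trans ?_ h
      have : B'.enc.length ≤ (Fm.imp A B').enc.length := by
        simp only [Fm.enc, List.length_cons, List.length_append]; omega
      exact_mod_cast this
  have hc0 : ∀ c, P (cst 0 c) := by
    intro c
    rw [hP]
    simp only
    have : (cst 0 c : Fm ℕ).enc.length ≤ 9 := by
      cases c <;> simp [cst, Fm.enc]
    refine le_trans ?_ (h9.trans hxx)
    exact_mod_cast this
  have hGP : ∀ A ∈ Gl, ¬ P A := by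
    intro A hA
    rw [hP]
    exact c3 A hA
  have hFD' : ∀ A ∈ F1, LDep (fun A => P A ∨ A ∈ Gl) D A := by
    intro A hA
    rcases c7 A hA with h | h
    · refine LDep_mono (fun Y hY => ?_) (hFD A h)
      rcases hY with hY | hY
      · left
        rw [hP]
        exact hY.trans (Real.rpow_le_rpow_of_exponent_le hx1 hθθ)
      · rcases c6 Y hY with h' | h'
        · left
          rw [hP]
          exact h'
        · exact Or.inr h'
    · refine LDep.base _ _ (Or.inl ?_)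
      rw [hP]
      exact h
  obtain ⟨Vl, v1, v2, v3, v4, v5⟩ := exists_big2 0 F F1 c1 c2 Ms hMs hFD'
  obtain ⟨S, s1, s2, s3, s4, s5⟩ := exists_star 0 Gl Vl v1
  have hSd : ∀ A ∈ S, LDep (fun A => (A.enc.length : ℝ) ≤ x ^ θ') (D + 3) A := by
    intro A hA
    have key : LDep P (D + 3) A := by
      rcases s5 A hA with ⟨b, X, hX, h⟩ | h | h | h
      · rw [← h]
        exact star_LDep hP1 hP2 hGP hc0 b (v3 X hX)
      · rw [h]; exact LDep.var _ _
      · rw [h]; exact LDep.base _ _ (hc0 _)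
      · rw [h]; exact LDep.base _ _ (hc0 _)
    rw [hP] at key
    exact key
  -- the length
  obtain ⟨z, hz⟩ : ∃ z : ℝ, z = x ^ ε := ⟨_, rfl⟩
  have hGz : (Gl.length : ℝ) ≤ z := by
    rw [hz]
    exact le_trans (by exact_mod_cast c4) hG
  have hlen : (S.length : ℝ) ≤ (2 : ℝ) ^ (x ^ ε0) := by
    rw [hxe, ← hz]
    rw [← hz] at h8 h10 hG hlt
    have e0 : (S.length : ℝ) ≤ 2 ^ Gl.length * Vl.length + 3 := by exact_mod_cast s4
    have e1 : (Vl.length : ℝ) ≤ 4 * ((F1.card : ℝ) + Ms.card + 2) ^ 4 := by exact_mod_cast v2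
    have e2 : (F1.card : ℝ) + Ms.card + 2 ≤ (2 : ℝ) ^ (z + 1) := by
      have e3 : (G.card : ℝ) * x ^ θ' + 2 ≤ x ^ p := by
        have e4 : (G.card : ℝ) * x ^ θ' ≤ z * x ^ θ' := mul_le_mul_of_nonneg_right hG hB0
        have e5 : z * x ^ θ' = x ^ (ε + θ') := by rw [hz, Real.rpow_add hx0]
        have e6 : x ^ p = x ^ (ε + θ') * x := by
          rw [hp, Real.rpow_add hx0, Real.rpow_one]
        have e7 : (1 : ℝ) ≤ x ^ (ε + θ') := Real.one_le_rpow hx1 (by linarith)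
        rw [e6]
        nlinarith
      rw [Real.rpow_add (by norm_num), Real.rpow_one]
      linarith
    have e4 : ((F1.card : ℝ) + Ms.card + 2) ^ 4 ≤ ((2 : ℝ) ^ (z + 1)) ^ 4 :=
      pow_le_pow_left₀ (by positivity) e2 4
    have e5 : 4 * ((2 : ℝ) ^ (z + 1)) ^ 4 = (2 : ℝ) ^ (4 * z + 6) := by
      rw [← Real.rpow_natCast ((2 : ℝ) ^ (z + 1)) 4, ← Real.rpow_mul (by norm_num),
        show (4 : ℝ) = (2 : ℝ) ^ (2 : ℝ) by norm_num, ← Real.rpow_add (by norm_num)]
      congr 1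
      push_cast
      norm_num
      ring
    have e6 : (2 : ℝ) ^ Gl.length ≤ (2 : ℝ) ^ z := by
      rw [← Real.rpow_natCast]
      exact Real.rpow_le_rpow_of_exponent_le (by norm_num) hGz
    have e7 : (2 : ℝ) ^ Gl.length * Vl.length ≤ (2 : ℝ) ^ (5 * z + 6) := by
      calc (2 : ℝ) ^ Gl.length * Vl.length ≤ (2 : ℝ) ^ z * (2 : ℝ) ^ (4 * z + 6) :=
            mul_le_mul e6 (by linarith) (Nat.cast_nonneg _) (by positivity)
        _ = (2 : ℝ) ^ (5 * z + 6) := by
          rw [← Real.rpow_add (by norm_num)]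
          congr 1
          ring
    have e8 : (3 : ℝ) ≤ (2 : ℝ) ^ (5 * z + 6) := by
      calc (3 : ℝ) ≤ (2 : ℝ) ^ (2 : ℝ) := by norm_num
        _ ≤ _ := Real.rpow_le_rpow_of_exponent_le (by norm_num) (by linarith)
    calc (S.length : ℝ) ≤ (2 : ℝ) ^ (5 * z + 6) * 2 := by linarith
      _ = (2 : ℝ) ^ (5 * z + 7) := by
        rw [show (5 * z + 7) = (5 * z + 6) + 1 by ring, Real.rpow_add (by norm_num) (5 * z + 6),
          Real.rpow_one]
      _ ≤ (2 : ℝ) ^ (z * z) := Real.rpow_le_rpow_of_exponent_le (by norm_num) (by nlinarith)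
  obtain ⟨V, iV, iDV, val, hWd, hcard⟩ := h7.2 S s1 hlen hSd
  have hGw : Gl.length ≤ w n := by
    have := h12 (Gl.length : ℝ) (by rw [← hz]; exact hGz)
    exact_mod_cast this
  obtain ⟨ww, hww⟩ : ∃ ww, ww = w n := ⟨_, rfl⟩
  rw [← hww] at h11 hGw hcard hWd
  have hq1 : ww * (3 * Gl.length) ≤ 3 * ww ^ 2 := by
    calc ww * (3 * Gl.length) ≤ ww * (3 * ww) := Nat.mul_le_mul_left _ (Nat.mul_le_mul_left _ hGw)
      _ = 3 * ww ^ 2 := by ring
  have hq2 : 10 ^ 11 * ww ^ 2 ≤ ww ^ 3 := by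
    calc 10 ^ 11 * ww ^ 2 ≤ ww * ww ^ 2 := Nat.mul_le_mul_right _ h11
      _ = ww ^ 3 := by ring
  have hq3 : ww ≤ ww ^ 2 := Nat.le_self_pow (by norm_num) _
  have hq4 : (ww + 1) ^ 2 ≤ 4 * ww ^ 2 := by nlinarith
  have hW2 := world_atm hWd s1 0 s2 Gl {A | A ∈ Vl} s3 (by
    rintro A ⟨i, rfl⟩
    have hPA : P (C n i) := by
      rw [hP]
      refine le_trans ?_ hxx
      rw [hx]
      exact_mod_cast hCl n i
    exact ⟨fun h => hGP _ h hPA, fun b => star_short hP1 hP2 hGP b _ hPA⟩) (by omega)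
  obtain ⟨E, U, iE, dE, iU, dU, src, tgt, u0, dd, hGg, hE⟩ := exists_GH ww
    (Fintype.card V - 2 * (ww * (3 * Gl.length))) (by omega)
  obtain ⟨val', hval'⟩ := world2_small hW2 (VH E) (by
    rw [card_VH]; exact ⟨_, rfl⟩) (by rw [card_VH]; exact hE)
  exact ⟨E, U, iE, dE, iU, dU, src, tgt, u0, dd, ww, val', {A | A ∈ Vl}, hGg, hval', v4, v5⟩

end Pool.Agent.H3.Alg2
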